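import Pool.Agent.TH497.TW.Flow

set_option autoImplicit false

/-! # Elimination orders from tree decompositions -/

namespace Pool.Agent.TH497.T4

open Finset Pool.Agent.TH497.TW

variable {V E : Type} [Fintype V] [DecidableEq V] [Fintype E] [DecidableEq E]

omit [Fintype V] [DecidableEq V] in
/-- two vertices in a common bag are together in all bags on the way up to the higher of the two
top bags -/
theorem up_bag {n : ℕ} {par : ℕ → ℕ} {B : ℕ → Finset V}
    (h0 : ∀ i, 0 < i → i < n → par i < i)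
    (h2 : ∀ i j v, j < i → i < n → v ∈ B i → v ∈ B j → v ∈ B (par i))
    {Z : Finset V} {r : V} {t : ℕ} (hrt : r ∈ B t) (hmin : ∀ i, i < n → r ∈ B i → t ≤ i)
    (hZ : ∀ z ∈ Z, ∃ j, j ≤ t ∧ z ∈ B j) (b : ℕ) : b < n → r ∈ B b → Z ⊆ B b → Z ⊆ B t := by
  induction b using Nat.strong_induction_on with
  | _ b ih =>
    intro hb hrb hZb
    have h1 := hmin b hb hrb
    rcases Nat.lt_or_eq_of_le h1 with h | h
    · have h3 : par b < b := h0 b (by omega) hb
      refine ih (par b) h3 (by omega) (h2 b t r h hb hrb hrt) ?_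
      intro z hz
      obtain ⟨j, hj, hzj⟩ := hZ z hz
      exact h2 b j z (by omega) hb (hZb hz) hzj
    · rw [h]; exact hZb

omit [Fintype V] [Fintype E] [DecidableEq E] in
/-- the sets contained in a bag: every nonempty set `U` of vertices has an element `r` and a bag
`W` containing all subsets of `U` that contain `r` and are contained in a bag -/
theorem elim {w : ℕ} {src dst : E → V} (h : HasTD w src dst) :
    ∃ In : Finset V → Prop, (∀ Z Z', Z ⊆ Z' → In Z' → In Z) ∧ (∀ e, In {src e, dst e}) ∧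
      (∀ Z, In Z → Z.card ≤ w) ∧
      ∀ U : Finset V, U.Nonempty → (∀ x ∈ U, In {x}) →
        ∃ r ∈ U, ∃ W, In W ∧ r ∈ W ∧ ∀ Z, In Z → Z ⊆ U → r ∈ Z → Z ⊆ W := by
  classical
  obtain ⟨n, par, B, h0, h1, h2, h4⟩ := h
  refine ⟨fun Z => ∃ b, b < n ∧ Z ⊆ B b, ?_, ?_, ?_, ?_⟩
  · rintro Z Z' hs ⟨b, hb, hZ⟩
    exact ⟨b, hb, hs.trans hZ⟩
  · intro e
    obtain ⟨i, hi, hs, hd⟩ := h1 e
    refine ⟨i, hi, ?_⟩
    intro x hx
    rw [mem_insert, mem_singleton] at hx
    rcases hx with rfl | rfl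
    · exact hs
    · exact hd
  · rintro Z ⟨b, hb, hZ⟩
    exact (card_le_card hZ).trans (h4 b hb)
  · intro U hU hin
    have hex : ∀ x ∈ U, ∃ b, b < n ∧ x ∈ B b := by
      intro x hx
      obtain ⟨b, hb, hs⟩ := hin x hx
      exact ⟨b, hb, hs (mem_singleton_self x)⟩
    let top : V → ℕ := fun x => if hx : ∃ b, b < n ∧ x ∈ B b then Nat.find hx else 0
    have htop : ∀ x ∈ U, top x < n ∧ x ∈ B (top x) ∧ ∀ i, i < n → x ∈ B i → top x ≤ i := by
      intro x hx
      have h5 := hex x hx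
      have h6 : top x = Nat.find h5 := dif_pos h5
      rw [h6]
      exact ⟨(Nat.find_spec h5).1, (Nat.find_spec h5).2, fun i hi hxi => Nat.find_min' h5 ⟨hi, hxi⟩⟩
    obtain ⟨r, hr, hmax⟩ := exists_max_image U top hU
    obtain ⟨t1, t2, t3⟩ := htop r hr
    refine ⟨r, hr, B (top r), ⟨top r, t1, subset_rfl⟩, t2, ?_⟩
    rintro Z ⟨b, hb, hZb⟩ hZU hrZ
    refine up_bag h0 h2 t2 t3 (fun z hz => ?_) b hb (hZb hrZ) hZb
    exact ⟨top z, hmax z (hZU hz), (htop z (hZU hz)).2.1⟩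

end Pool.Agent.TH497.T4
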