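import Pool.Agent.TH462.T4.Label

set_option autoImplicit false
set_option linter.unusedSectionVars false

/-! # Sets of codes as 1024-bit masks -/

namespace Pool.Agent.TH497.T4

open Pool.Agent.TH462.T4

/-- swap the bits `c` and `c ^^^ s` (`s` a power of two, `M` the positions without the bit `s`) -/
def sw (s M m : ℕ) : ℕ := Nat.lor (Nat.land (Nat.shiftRight m s) M) (Nat.shiftLeft (Nat.land m M) s)
def M0 : ℕ := 0x5555555555555555555555555555555555555555555555555555555555555555555555555555555555555555555555555555555555555555555555555555555555555555555555555555555555555555555555555555555555555555555555555555555555555555555555555555555555555555555555555555555555555555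
def M1 : ℕ := 0x3333333333333333333333333333333333333333333333333333333333333333333333333333333333333333333333333333333333333333333333333333333333333333333333333333333333333333333333333333333333333333333333333333333333333333333333333333333333333333333333333333333333333333
def M2 : ℕ := 0xf0f0f0f0f0f0f0f0f0f0f0f0f0f0f0f0f0f0f0f0f0f0f0f0f0f0f0f0f0f0f0f0f0f0f0f0f0f0f0f0f0f0f0f0f0f0f0f0f0f0f0f0f0f0f0f0f0f0f0f0f0f0f0f0f0f0f0f0f0f0f0f0f0f0f0f0f0f0f0f0f0f0f0f0f0f0f0f0f0f0f0f0f0f0f0f0f0f0f0f0f0f0f0f0f0f0f0f0f0f0f0f0f0f0f0f0f0f0f0f0f0f0f0f0f0f0f0f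
def M3 : ℕ := 0xff00ff00ff00ff00ff00ff00ff00ff00ff00ff00ff00ff00ff00ff00ff00ff00ff00ff00ff00ff00ff00ff00ff00ff00ff00ff00ff00ff00ff00ff00ff00ff00ff00ff00ff00ff00ff00ff00ff00ff00ff00ff00ff00ff00ff00ff00ff00ff00ff00ff00ff00ff00ff00ff00ff00ff00ff00ff00ff00ff00ff00ff00ff00ff
def M4 : ℕ := 0xffff0000ffff0000ffff0000ffff0000ffff0000ffff0000ffff0000ffff0000ffff0000ffff0000ffff0000ffff0000ffff0000ffff0000ffff0000ffff0000ffff0000ffff0000ffff0000ffff0000ffff0000ffff0000ffff0000ffff0000ffff0000ffff0000ffff0000ffff0000ffff0000ffff0000ffff0000ffff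
def M5 : ℕ := 0xffffffff00000000ffffffff00000000ffffffff00000000ffffffff00000000ffffffff00000000ffffffff00000000ffffffff00000000ffffffff00000000ffffffff00000000ffffffff00000000ffffffff00000000ffffffff00000000ffffffff00000000ffffffff00000000ffffffff00000000ffffffff
def M6 : ℕ := 0xffffffffffffffff0000000000000000ffffffffffffffff0000000000000000ffffffffffffffff0000000000000000ffffffffffffffff0000000000000000ffffffffffffffff0000000000000000ffffffffffffffff0000000000000000ffffffffffffffff0000000000000000ffffffffffffffff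
def M7 : ℕ := 0xffffffffffffffffffffffffffffffff00000000000000000000000000000000ffffffffffffffffffffffffffffffff00000000000000000000000000000000ffffffffffffffffffffffffffffffff00000000000000000000000000000000ffffffffffffffffffffffffffffffff
def M8 : ℕ := 0xffffffffffffffffffffffffffffffffffffffffffffffffffffffffffffffff0000000000000000000000000000000000000000000000000000000000000000ffffffffffffffffffffffffffffffffffffffffffffffffffffffffffffffff
def M9 : ℕ := 0xffffffffffffffffffffffffffffffffffffffffffffffffffffffffffffffffffffffffffffffffffffffffffffffffffffffffffffffffffffffffffffffff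

/-- a conditional swap -/
def st (k s M x m : ℕ) : ℕ := bif Nat.beq (Nat.land (Nat.shiftRight x k) 1) 0 then m else sw s M m

/-- translate the set `m` of codes by `x` -/
def tr (x m : ℕ) : ℕ :=
  st 9 512 M9 x (st 8 256 M8 x (st 7 128 M7 x (st 6 64 M6 x (st 5 32 M5 x (st 4 16 M4 x
    (st 3 8 M3 x (st 2 4 M2 x (st 1 2 M1 x (st 0 1 M0 x m)))))))))

/-- the sums of an element of `L` and an element of `m` -/
def conv (L : List ℕ) (m : ℕ) : ℕ := L.foldl (fun acc x => acc ||| tr x m) 0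

/-- the mask of a list -/
def mask (L : List ℕ) : ℕ := L.foldl (fun acc x => acc ||| (1 <<< x)) 0

/-- a bounded check, fast in the kernel -/
def allB (p : ℕ → Bool) : ℕ → Bool
  | 0 => true
  | n + 1 => bif p n then allB p n else false

theorem allB_spec {p : ℕ → Bool} {n : ℕ} (h : allB p n = true) : ∀ k < n, p k = true := by
  induction n with
  | zero => intro k hk; exact absurd hk (Nat.not_lt_zero _)
  | succ n ih =>
    unfold allB at h
    cases hp : p n
    · rw [hp] at h; exact absurd h (by simp)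
    · rw [hp] at h
      intro k hk
      rcases Nat.lt_succ_iff_lt_or_eq.mp hk with h1 | h1
      · exact ih h k h1
      · rw [h1]; exact hp

/-- the bit `k` of `x` -/
def bt (x k : ℕ) : ℕ := Nat.land (Nat.shiftRight x k) 1

theorem bt_eq (x k : ℕ) : bt x k = (x.testBit k).toNat := by
  have : bt x k = (x >>> k) &&& 1 := rfl
  rw [this, Nat.and_one_is_mod, Nat.toNat_testBit, Nat.shiftRight_eq_div_pow]

/-- the facts about the bit `k` of `c`, with `s = 2 ^ k` -/
def fct (k s c : ℕ) : Bool :=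
  bif Nat.beq (bt c k) 0 then
    bif Nat.beq (Nat.xor c s) (Nat.add s c) then
      bif Nat.ble s c then Nat.beq (bt (Nat.sub c s) k) 1 else true
    else false
  else
    bif Nat.beq (Nat.xor c s) (Nat.sub c s) then
      bif Nat.ble s c then Nat.beq (bt (Nat.sub c s) k) 0 else false
    else false

theorem fct_all : allB (fun k => allB (fct k (Nat.pow 2 k)) 1024) 10 = true := by decide +kernel

theorem factA (k : ℕ) (hk : k < 10) (c : ℕ) (hc : c < 1024) (h : Nat.testBit c k = false) :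
    c ^^^ 2 ^ k = 2 ^ k + c ∧ (2 ^ k ≤ c → Nat.testBit (c - 2 ^ k) k = true) := by
  have h1 := allB_spec (allB_spec fct_all k hk) c hc
  unfold fct at h1
  rw [bt_eq c k, h] at h1
  have e0 : Nat.beq (Bool.toNat false) 0 = true := rfl
  rw [e0, cond_true] at h1
  cases h2 : Nat.beq (Nat.xor c (Nat.pow 2 k)) (Nat.add (Nat.pow 2 k) c)
  · rw [h2] at h1; exact absurd h1 (by simp)
  · rw [h2, cond_true] at h1
    refine ⟨Nat.eq_of_beq_eq_true h2, fun h3 => ?_⟩
    have h4 : Nat.ble (Nat.pow 2 k) c = true := Nat.ble_eq.mpr h3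
    rw [h4, cond_true, bt_eq] at h1
    have h5 := Nat.eq_of_beq_eq_true h1
    cases h6 : Nat.testBit (c - 2 ^ k) k
    · have h7 : (Nat.testBit (Nat.sub c (Nat.pow 2 k)) k) = false := h6
      rw [h7] at h5
      exact absurd h5 (by simp)
    · rfl

theorem factB (k : ℕ) (hk : k < 10) (c : ℕ) (hc : c < 1024) (h : Nat.testBit c k = true) :
    c ^^^ 2 ^ k = c - 2 ^ k ∧ 2 ^ k ≤ c ∧ Nat.testBit (c - 2 ^ k) k = false := by
  have h1 := allB_spec (allB_spec fct_all k hk) c hc
  unfold fct at h1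
  rw [bt_eq c k, h] at h1
  have e0 : Nat.beq (Bool.toNat true) 0 = false := rfl
  rw [e0, cond_false] at h1
  cases h2 : Nat.beq (Nat.xor c (Nat.pow 2 k)) (Nat.sub c (Nat.pow 2 k))
  · rw [h2] at h1; exact absurd h1 (by simp)
  · rw [h2, cond_true] at h1
    cases h3 : Nat.ble (Nat.pow 2 k) c
    · rw [h3] at h1; exact absurd h1 (by simp)
    · rw [h3, cond_true, bt_eq] at h1
      refine ⟨Nat.eq_of_beq_eq_true h2, Nat.ble_eq.mp h3, ?_⟩
      have h5 := Nat.eq_of_beq_eq_true h1
      cases h6 : Nat.testBit (c - 2 ^ k) k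
      · rfl
      · have h7 : (Nat.testBit (Nat.sub c (Nat.pow 2 k)) k) = true := h6
        rw [h7] at h5
        exact absurd h5 (by simp)

theorem hM_of {M k : ℕ} (h : allB (fun c => Nat.beq (Nat.add (bt M c) (bt c k)) 1) 1024 = true) :
    ∀ c < 1024, Nat.testBit M c = !Nat.testBit c k := by
  intro c hc
  have h1 := Nat.eq_of_beq_eq_true (allB_spec h c hc)
  have h2 : bt M c + bt c k = 1 := h1
  rw [bt_eq, bt_eq] at h2
  cases h3 : Nat.testBit M c <;> cases h4 : Nat.testBit c k <;> rw [h3, h4] at h2 <;>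
    simp at h2 ⊢

theorem hM0 : ∀ c < 1024, Nat.testBit M0 c = !Nat.testBit c 0 := hM_of (by decide +kernel)
theorem hM1 : ∀ c < 1024, Nat.testBit M1 c = !Nat.testBit c 1 := hM_of (by decide +kernel)
theorem hM2 : ∀ c < 1024, Nat.testBit M2 c = !Nat.testBit c 2 := hM_of (by decide +kernel)
theorem hM3 : ∀ c < 1024, Nat.testBit M3 c = !Nat.testBit c 3 := hM_of (by decide +kernel)
theorem hM4 : ∀ c < 1024, Nat.testBit M4 c = !Nat.testBit c 4 := hM_of (by decide +kernel)
theorem hM5 : ∀ c < 1024, Nat.testBit M5 c = !Nat.testBit c 5 := hM_of (by decide +kernel)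
theorem hM6 : ∀ c < 1024, Nat.testBit M6 c = !Nat.testBit c 6 := hM_of (by decide +kernel)
theorem hM7 : ∀ c < 1024, Nat.testBit M7 c = !Nat.testBit c 7 := hM_of (by decide +kernel)
theorem hM8 : ∀ c < 1024, Nat.testBit M8 c = !Nat.testBit c 8 := hM_of (by decide +kernel)
theorem hM9 : ∀ c < 1024, Nat.testBit M9 c = !Nat.testBit c 9 := hM_of (by decide +kernel)

theorem sw_testBit {k M m c : ℕ} (hk : k < 10) (hM : ∀ c < 1024, M.testBit c = !c.testBit k)
    (hc : c < 1024) : (sw (2 ^ k) M m).testBit c = m.testBit (c ^^^ 2 ^ k) := by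
  have e : sw (2 ^ k) M m = ((m >>> 2 ^ k) &&& M) ||| ((m &&& M) <<< 2 ^ k) := rfl
  rw [e, Nat.testBit_or, Nat.testBit_and, Nat.testBit_shiftRight, Nat.testBit_shiftLeft,
    Nat.testBit_and, hM c hc, hM (c - 2 ^ k) (lt_of_le_of_lt (Nat.sub_le _ _) hc)]
  cases h : c.testBit k
  · obtain ⟨h1, h2⟩ := factA k hk c hc h
    rw [h1]
    by_cases h3 : 2 ^ k ≤ c
    · rw [h2 h3]; simp
    · simp [h3]
  · obtain ⟨h1, h2, h3⟩ := factB k hk c hc h
    rw [h1, h3]
    simp [h2]

theorem st_testBit {k s M x m c : ℕ} (hk : k < 10) (hs : s = 2 ^ k)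
    (hM : ∀ c < 1024, M.testBit c = !c.testBit k) (hc : c < 1024) :
    (st k s M x m).testBit c = m.testBit (c ^^^ (x &&& 2 ^ k)) := by
  subst hs
  unfold st
  have h1 : Nat.land (Nat.shiftRight x k) 1 = (x.testBit k).toNat := bt_eq x k
  rw [h1]
  have h2 : x &&& 2 ^ k = 2 ^ k * (x.testBit k).toNat := by
    rw [Nat.and_two_pow]; ring
  rw [h2]
  cases h : x.testBit k
  · simp
  · have h3 : Nat.beq (Bool.toNat true) 0 = false := rfl
    rw [h3]
    simp only [cond_false, Bool.toNat_true, mul_one]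
    exact sw_testBit hk hM hc

theorem and_lt (x : ℕ) (k : ℕ) (hk : k < 10) : x &&& 2 ^ k < 2 ^ 10 :=
  lt_of_le_of_lt Nat.and_le_right (Nat.pow_lt_pow_right (by norm_num) hk)

theorem xor_all_chk : allB (fun x => Nat.beq (Nat.xor (Nat.xor (Nat.xor (Nat.xor (Nat.xor (Nat.xor
    (Nat.xor (Nat.xor (Nat.xor (Nat.land x 512) (Nat.land x 256)) (Nat.land x 128))
    (Nat.land x 64)) (Nat.land x 32)) (Nat.land x 16)) (Nat.land x 8)) (Nat.land x 4))
    (Nat.land x 2)) (Nat.land x 1)) x) 1024 = true := by decide +kernel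

theorem xor_all (x : ℕ) (hx : x < 1024) :
    (x &&& 2 ^ 9) ^^^ (x &&& 2 ^ 8) ^^^ (x &&& 2 ^ 7) ^^^ (x &&& 2 ^ 6) ^^^
    (x &&& 2 ^ 5) ^^^ (x &&& 2 ^ 4) ^^^ (x &&& 2 ^ 3) ^^^ (x &&& 2 ^ 2) ^^^ (x &&& 2 ^ 1) ^^^
    (x &&& 2 ^ 0) = x := Nat.eq_of_beq_eq_true (allB_spec xor_all_chk x hx)

theorem tr_testBit {x m c : ℕ} (hx : x < 1024) (hc : c < 1024) :
    (tr x m).testBit c = m.testBit (c ^^^ x) := by
  unfold tr
  have l9 : c ^^^ (x &&& 2 ^ 9) < 2 ^ 10 := Nat.xor_lt_two_pow hc (and_lt x 9 (by norm_num))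
  have l8 := Nat.xor_lt_two_pow l9 (and_lt x 8 (by norm_num))
  have l7 := Nat.xor_lt_two_pow l8 (and_lt x 7 (by norm_num))
  have l6 := Nat.xor_lt_two_pow l7 (and_lt x 6 (by norm_num))
  have l5 := Nat.xor_lt_two_pow l6 (and_lt x 5 (by norm_num))
  have l4 := Nat.xor_lt_two_pow l5 (and_lt x 4 (by norm_num))
  have l3 := Nat.xor_lt_two_pow l4 (and_lt x 3 (by norm_num))
  have l2 := Nat.xor_lt_two_pow l3 (and_lt x 2 (by norm_num))
  have l1 := Nat.xor_lt_two_pow l2 (and_lt x 1 (by norm_num))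
  rw [st_testBit (by norm_num) (by norm_num) hM9 hc,
    st_testBit (by norm_num) (by norm_num) hM8 l9,
    st_testBit (by norm_num) (by norm_num) hM7 l8,
    st_testBit (by norm_num) (by norm_num) hM6 l7,
    st_testBit (by norm_num) (by norm_num) hM5 l6,
    st_testBit (by norm_num) (by norm_num) hM4 l5,
    st_testBit (by norm_num) (by norm_num) hM3 l4,
    st_testBit (by norm_num) (by norm_num) hM2 l3,
    st_testBit (by norm_num) (by norm_num) hM1 l2,
    st_testBit (by norm_num) (by norm_num) hM0 l1]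
  congr 1
  have h := xor_all x hx
  simp only [Nat.xor_assoc] at h ⊢
  rw [h]

theorem foldl_or_testBit {α : Type} (f : α → ℕ) (L : List α) (acc c : ℕ) :
    (L.foldl (fun acc x => acc ||| f x) acc).testBit c = true ↔
      acc.testBit c = true ∨ ∃ x ∈ L, (f x).testBit c = true := by
  induction L generalizing acc with
  | nil => simp
  | cons y L ih =>
    rw [List.foldl_cons, ih, Nat.testBit_or, Bool.or_eq_true]
    constructor
    · rintro ((h | h) | ⟨x, h1, h2⟩)
      · exact Or.inl h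
      · exact Or.inr ⟨y, List.mem_cons_self, h⟩
      · exact Or.inr ⟨x, List.mem_cons_of_mem _ h1, h2⟩
    · rintro (h | ⟨x, h1, h2⟩)
      · exact Or.inl (Or.inl h)
      · rcases List.mem_cons.mp h1 with h3 | h3
        · exact Or.inl (Or.inr (h3 ▸ h2))
        · exact Or.inr ⟨x, h3, h2⟩

theorem conv_testBit {L : List ℕ} {m c : ℕ} (hL : ∀ x ∈ L, x < 1024) (hc : c < 1024) :
    (conv L m).testBit c = true ↔ ∃ x ∈ L, m.testBit (c ^^^ x) = true := by
  unfold conv
  rw [foldl_or_testBit (fun x => tr x m)]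
  constructor
  · rintro (h | ⟨x, h1, h2⟩)
    · simp at h
    · exact ⟨x, h1, by rw [tr_testBit (hL x h1) hc] at h2; exact h2⟩
  · rintro ⟨x, h1, h2⟩
    exact Or.inr ⟨x, h1, by rw [tr_testBit (hL x h1) hc]; exact h2⟩

theorem mask_testBit {L : List ℕ} {c : ℕ} : (mask L).testBit c = true ↔ c ∈ L := by
  unfold mask
  rw [foldl_or_testBit (fun x => 1 <<< x)]
  constructor
  · rintro (h | ⟨x, h1, h2⟩)
    · simp at h
    · rw [Nat.one_shiftLeft, Nat.testBit_two_pow, decide_eq_true_iff] at h2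
      exact h2 ▸ h1
  · intro h
    refine Or.inr ⟨c, h, ?_⟩
    rw [Nat.one_shiftLeft, Nat.testBit_two_pow, decide_eq_true_iff]

theorem dig_lt (x y : ℕ) : (x &&& 3) <<< (2 * (y % 5)) < 2 ^ 10 := by
  have h1 : x &&& 3 ≤ 3 := Nat.and_le_right
  have h2 : y % 5 < 5 := Nat.mod_lt _ (by norm_num)
  rw [Nat.shiftLeft_eq]
  have h3 : 2 ^ (2 * (y % 5)) ≤ 2 ^ 8 := Nat.pow_le_pow_right (by norm_num) (by omega)
  calc (x &&& 3) * 2 ^ (2 * (y % 5)) ≤ 3 * 2 ^ 8 := Nat.mul_le_mul h1 h3
    _ < 2 ^ 10 := by norm_num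

theorem pushc_lt (g : List ℕ) (c : ℕ) : pushc g c < 1024 := by
  unfold pushc
  have h0 := dig_lt c (g.getD 0 0)
  have h1 := dig_lt (c >>> 2) (g.getD 1 0)
  have h2 := dig_lt (c >>> 4) (g.getD 2 0)
  have h3 := dig_lt (c >>> 6) (g.getD 3 0)
  have h4 := dig_lt (c >>> 8) (g.getD 4 0)
  exact Nat.xor_lt_two_pow (Nat.xor_lt_two_pow (Nat.xor_lt_two_pow (Nat.xor_lt_two_pow h0 h1) h2)
    h3) h4

theorem sub_of_or {A B : ℕ} (h : A ||| B = B) (c : ℕ) (hc : A.testBit c = true) :
    B.testBit c = true := by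
  rw [← h, Nat.testBit_or, hc]; rfl

end Pool.Agent.TH497.T4
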