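import Pool.Agent.TH497.T4.K3

set_option autoImplicit false
set_option linter.unusedSectionVars false
set_option synthInstance.maxHeartbeats 400000
set_option synthInstance.maxSize 2048

/-! # Reducible families of parts -/

namespace Pool.Agent.TH497.T4

open Finset Pool.Agent.TH462.T4 Pool.Agent.TH676.T4

variable {V E : Type} [Fintype V] [DecidableEq V] [Fintype E] [DecidableEq E]

/-- a family of parts of the graph: `F i` the edges, `I i` the interior vertices, `W` a set which
contains all roots -/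
structure FamW (src dst : E → V) {ι : Type} (F : ι → Finset E) (I : ι → Finset V)
    (W : Finset V) : Prop where
  dF : ∀ i j, i ≠ j → Disjoint (F i) (F j)
  dI : ∀ i j, i ≠ j → Disjoint (I i) (I j)
  dW : ∀ i, Disjoint (I i) W
  ends : ∀ i, ∀ e ∈ F i, src e ≠ dst e ∧ src e ∈ I i ∪ W ∧ dst e ∈ I i ∪ W
  clos : ∀ i, ∀ x ∈ I i, ∀ e, src e ≠ dst e → (src e = x ∨ dst e = x) → e ∈ F i

theorem bd_loopfree {src dst : E → V} (f g : E → K4) (v : V)
    (h : ∀ e, src e ≠ dst e → (src e = v ∨ dst e = v) → f e = g e) :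
    bd src dst f v = bd src dst g v := by
  unfold bd
  refine sum_congr rfl fun e _ => ?_
  by_cases hl : src e = dst e
  · rw [hl]
    by_cases h1 : dst e = v
    · simp [h1, K4.add_self]
    · simp [h1]
  · have h2 := h e hl
    by_cases h3 : src e = v <;> by_cases h4 : dst e = v <;> simp [h3, h4, h2]

theorem bd_sum {src dst : E → V} {ι : Type} (s : Finset ι) (g : ι → E → K4) (v : V) :
    bd src dst (fun e => ∑ i ∈ s, g i e) v = ∑ i ∈ s, bd src dst (g i) v := by
  classical
  unfold bd
  rw [sum_comm]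
  refine sum_congr rfl fun e _ => ?_
  rw [sum_add_distrib]
  by_cases h3 : src e = v <;> by_cases h4 : dst e = v <;> simp [h3, h4]

section
variable {ι : Type} [Fintype ι] [DecidableEq ι]
variable {src dst : E → V} {F : ι → Finset E} {I : ι → Finset V} {W : Finset V}

/-- counting the edges of a cut in the parts and in the rest -/
theorem FamW.card_split (hf : FamW src dst F I W) (X : Finset E) (D : ι → Finset E)
    (hD : ∀ i, D i ⊆ F i) :
    (X \ univ.biUnion D).card = (X \ univ.biUnion F).card + ∑ i, ((X ∩ F i) \ D i).card := by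
  have h1 : X \ univ.biUnion D = (X \ univ.biUnion F) ∪ univ.biUnion (fun i => (X ∩ F i) \ D i) := by
    ext e
    simp only [mem_sdiff, mem_biUnion, mem_univ, true_and, mem_union, mem_inter, not_exists]
    constructor
    · rintro ⟨h1, h2⟩
      by_cases h3 : ∃ i, e ∈ F i
      · obtain ⟨i, hi⟩ := h3
        exact Or.inr ⟨i, ⟨h1, hi⟩, h2 i⟩
      · push Not at h3
        exact Or.inl ⟨h1, h3⟩
    · rintro (⟨h1, h2⟩ | ⟨i, ⟨h1, h2⟩, h3⟩)
      · exact ⟨h1, fun i hi => h2 i (hD i hi)⟩
      · refine ⟨h1, fun j hj => ?_⟩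
        by_cases hij : i = j
        · exact h3 (hij ▸ hj)
        · exact disjoint_left.mp (hf.dF i j hij) h2 (hD j hj)
  rw [h1, card_union_of_disjoint, card_biUnion]
  · intro i _ j _ hij
    refine disjoint_left.mpr fun e he he2 => ?_
    exact disjoint_left.mp (hf.dF i j hij) (mem_inter.mp (mem_sdiff.mp he).1).2
      (mem_inter.mp (mem_sdiff.mp he2).1).2
  · refine disjoint_left.mpr fun e he he2 => ?_
    obtain ⟨i, _, hi⟩ := mem_biUnion.mp he2
    exact (mem_sdiff.mp he).2 (mem_biUnion.mpr ⟨i, mem_univ _, (mem_inter.mp (mem_sdiff.mp hi).1).2⟩)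

theorem FamW.rest (hf : FamW src dst F I W) {Y Y' : Finset V}
    (h : ∀ v, (∀ i, v ∉ I i) → (v ∈ Y' ↔ v ∈ Y)) :
    crs src dst Y' \ univ.biUnion F = crs src dst Y \ univ.biUnion F := by
  ext e
  simp only [mem_sdiff, mem_crs, mem_biUnion, mem_univ, true_and, not_exists]
  by_cases hl : src e = dst e
  · rw [hl]; simp
  · constructor
    · rintro ⟨h1, h2⟩
      have h3 : ∀ i, src e ∉ I i := fun i hi => h2 i (hf.clos i _ hi e hl (Or.inl rfl))
      have h4 : ∀ i, dst e ∉ I i := fun i hi => h2 i (hf.clos i _ hi e hl (Or.inr rfl))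
      rw [h _ h3, h _ h4] at h1
      exact ⟨h1, h2⟩
    · rintro ⟨h1, h2⟩
      have h3 : ∀ i, src e ∉ I i := fun i hi => h2 i (hf.clos i _ hi e hl (Or.inl rfl))
      have h4 : ∀ i, dst e ∉ I i := fun i hi => h2 i (hf.clos i _ hi e hl (Or.inr rfl))
      rw [h _ h3, h _ h4]
      exact ⟨h1, h2⟩

/-- the cuts after replacing the parts by their variants -/
theorem FamW.br (h : MinCx src dst) (hf : FamW src dst F I W) {D C : ι → Finset E}
    (hDF : ∀ i, D i ⊆ F i) (nisW : ∀ w ∈ W, Nis src dst w)
    (cv cp : ι → Finset V → ℕ)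
    (hV : ∀ i Y, Disjoint (crs src dst Y) (C i) → cv i (Y ∩ W) ≤ ((crs src dst Y ∩ F i) \ D i).card)
    (hV0 : ∀ i Y, Disjoint (crs src dst Y) (C i) → Y ∩ W = ∅ →
      ((crs src dst Y ∩ F i) \ D i).card ≠ 1)
    (hP : ∀ i J, J ⊆ W → ∃ Y ⊆ I i, (crs src dst (J ∪ Y) ∩ F i).card ≤ cp i J)
    (need : ∀ J ⊆ W, J.Nonempty → (W \ J).Nonempty → 2 ≤ ∑ i, cv i J +
      ((if 2 ≤ J.card ∧ 2 ≤ (W \ J).card then 4 else 3) - ∑ i, cp i J)) :
    Br src dst (univ.biUnion D) (univ.biUnion C) := by
  have hdisj : ∀ Y, Disjoint (crs src dst Y) (univ.biUnion C) →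
      ∀ i, Disjoint (crs src dst Y) (C i) := by
    intro Y hY i
    exact disjoint_left.mpr fun e he he2 => disjoint_left.mp hY he (mem_biUnion.mpr ⟨i, mem_univ _, he2⟩)
  -- the case of no root on one side
  have hzero : ∀ Y, (∀ i, Disjoint (crs src dst Y) (C i)) → Y ∩ W = ∅ →
      (crs src dst Y \ univ.biUnion D).card ≠ 1 := by
    intro Y hY hYW
    rw [hf.card_split _ D hDF]
    by_cases hall : ∀ i, ((crs src dst Y ∩ F i) \ D i).card = 0
    · rw [sum_eq_zero (fun i _ => hall i), add_zero]
      have h1 : crs src dst (Y \ univ.biUnion I) = crs src dst Y \ univ.biUnion F := by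
        have h2 := hf.rest (Y := Y) (Y' := Y \ univ.biUnion I) (fun v hv => by
          simp only [mem_sdiff, mem_biUnion, mem_univ, true_and, not_exists]
          exact ⟨fun h => h.1, fun h => ⟨h, hv⟩⟩)
        rw [← h2]
        ext e
        rw [mem_sdiff]
        refine ⟨fun he => ⟨he, fun he2 => ?_⟩, fun he => he.1⟩
        obtain ⟨i, _, hi⟩ := mem_biUnion.mp he2
        obtain ⟨_, h3, h4⟩ := hf.ends i e hi
        have hno : ∀ v, v ∈ I i ∪ W → v ∉ Y \ univ.biUnion I := by
          intro v hv hv2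
          rw [mem_sdiff, mem_biUnion] at hv2
          rcases mem_union.mp hv with h5 | h5
          · exact hv2.2 ⟨i, mem_univ _, h5⟩
          · have : v ∈ Y ∩ W := mem_inter.mpr ⟨hv2.1, h5⟩
            rw [hYW] at this
            exact absurd this (notMem_empty _)
        rw [mem_crs] at he
        exact he ⟨fun h5 => absurd h5 (hno _ h3), fun h5 => absurd h5 (hno _ h4)⟩
      rw [← h1]
      have h3 := h.br (Y \ univ.biUnion I) (disjoint_empty_right _)
      rwa [sdiff_empty] at h3
    · push Not at hall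
      obtain ⟨i, hi⟩ := hall
      have h1 := hV0 i Y (hY i) hYW
      have h2 : ((crs src dst Y ∩ F i) \ D i).card ≤ ∑ i, ((crs src dst Y ∩ F i) \ D i).card :=
        single_le_sum (f := fun i => ((crs src dst Y ∩ F i) \ D i).card)
          (fun _ _ => Nat.zero_le _) (mem_univ i)
      omega
  intro Y hYC
  have hY := hdisj Y hYC
  by_cases h0 : Y ∩ W = ∅
  · exact hzero Y hY h0
  · by_cases h1 : W ⊆ Y
    · rw [← crs_compl (src := src) (dst := dst) Y]
      refine hzero Yᶜ (fun i => by rw [crs_compl]; exact hY i) ?_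
      ext v
      simp only [mem_inter, mem_compl, notMem_empty, iff_false]
      rintro ⟨h2, h3⟩
      exact h2 (h1 h3)
    · have hJW : Y ∩ W ⊆ W := inter_subset_right
      have hJ : (Y ∩ W).Nonempty := nonempty_iff_ne_empty.mpr h0
      have hJ' : (W \ (Y ∩ W)).Nonempty := by
        rw [not_subset] at h1
        obtain ⟨w, hw, hw2⟩ := h1
        exact ⟨w, mem_sdiff.mpr ⟨hw, fun h3 => hw2 (mem_inter.mp h3).1⟩⟩
      have hn := need _ hJW hJ hJ'
      choose Z hZ1 hZ2 using fun i => hP i (Y ∩ W) hJW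
      set Y' : Finset V := (Y \ univ.biUnion I) ∪ univ.biUnion Z with hY'
      have hmemI : ∀ i, ∀ v ∈ I i, (v ∈ Y' ↔ v ∈ Z i) := by
        intro i v hv
        rw [hY', mem_union, mem_sdiff, mem_biUnion, mem_biUnion]
        constructor
        · rintro (⟨_, h3⟩ | ⟨j, _, hj⟩)
          · exact absurd ⟨i, mem_univ _, hv⟩ h3
          · by_cases hij : i = j
            · rw [hij]; exact hj
            · exact absurd (hZ1 j hj) (fun h5 => disjoint_left.mp (hf.dI i j hij) hv h5)
        · intro h3
          exact Or.inr ⟨i, mem_univ _, h3⟩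
      have hmemO : ∀ v, (∀ i, v ∉ I i) → (v ∈ Y' ↔ v ∈ Y) := by
        intro v hv
        rw [hY', mem_union, mem_sdiff, mem_biUnion, mem_biUnion]
        constructor
        · rintro (⟨h3, _⟩ | ⟨j, _, hj⟩)
          · exact h3
          · exact absurd (hZ1 j hj) (hv j)
        · intro h3
          exact Or.inl ⟨h3, fun ⟨j, _, hj⟩ => hv j hj⟩
      have hWI : ∀ v ∈ W, ∀ i, v ∉ I i := fun v hv i hi => disjoint_left.mp (hf.dW i) hi hv
      have hpart : ∀ i, crs src dst Y' ∩ F i = crs src dst (Y ∩ W ∪ Z i) ∩ F i := by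
        intro i
        have hside : ∀ v ∈ I i ∪ W, (v ∈ Y' ↔ v ∈ Y ∩ W ∪ Z i) := by
          intro v hv
          rcases mem_union.mp hv with h3 | h3
          · rw [hmemI i v h3, mem_union, mem_inter]
            constructor
            · intro h4; exact Or.inr h4
            · rintro (⟨_, h4⟩ | h4)
              · exact absurd h3 (hWI v h4 i)
              · exact h4
          · rw [hmemO v (hWI v h3), mem_union, mem_inter]
            constructor
            · intro h4; exact Or.inl ⟨h4, h3⟩
            · rintro (⟨h4, _⟩ | h4)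
              · exact h4
              · exact absurd (hZ1 i h4) (hWI v h3 i)
        ext e
        rw [mem_inter, mem_inter]
        refine and_congr_left fun he => ?_
        obtain ⟨_, h3, h4⟩ := hf.ends i e he
        rw [mem_crs, mem_crs, hside _ h3, hside _ h4]
      have hcard : (crs src dst Y').card =
          (crs src dst Y \ univ.biUnion F).card + ∑ i, (crs src dst (Y ∩ W ∪ Z i) ∩ F i).card := by
        have h3 := hf.card_split (crs src dst Y') (fun _ => ∅) (fun i => empty_subset _)
        rw [hf.rest hmemO] at h3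
        simp only [sdiff_empty, hpart] at h3
        rw [← h3]
        congr 1
        ext e
        simp
      have hle : (crs src dst Y').card ≤
          (crs src dst Y \ univ.biUnion F).card + ∑ i, cp i (Y ∩ W) := by
        rw [hcard]
        exact Nat.add_le_add_left (sum_le_sum fun i _ => hZ2 i) _
      have hlow : (if 2 ≤ (Y ∩ W).card ∧ 2 ≤ (W \ (Y ∩ W)).card then 4 else 3) ≤
          (crs src dst Y').card := by
        have hin : ∀ v ∈ Y ∩ W, v ∈ Y' := fun v hv =>
          (hmemO v (hWI v (mem_inter.mp hv).2)).mpr (mem_inter.mp hv).1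
        have hout : ∀ v ∈ W \ (Y ∩ W), v ∉ Y' := by
          intro v hv hv2
          rw [mem_sdiff, mem_inter] at hv
          exact hv.2 ⟨(hmemO v (hWI v hv.1)).mp hv2, hv.1⟩
        split_ifs with hc
        · obtain ⟨a, ha, b, hb, hab⟩ := one_lt_card.mp (show 1 < (Y ∩ W).card by omega)
          obtain ⟨c, hc1, d, hd1, hcd⟩ :=
            one_lt_card.mp (show 1 < (W \ (Y ∩ W)).card by omega)
          exact cut4 h (hin a ha) (hin b hb) hab (hout c hc1) (hout d hd1) hcd
            (nisW a (mem_inter.mp ha).2) (nisW b (mem_inter.mp hb).2)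
            (nisW c (mem_sdiff.mp hc1).1) (nisW d (mem_sdiff.mp hd1).1)
        · obtain ⟨a, ha⟩ := hJ
          obtain ⟨c, hc1⟩ := hJ'
          exact cut3 h (hin a ha) (hout c hc1) (nisW a (mem_inter.mp ha).2)
            (nisW c (mem_sdiff.mp hc1).1)
      have hsum : ∑ i, cv i (Y ∩ W) ≤ ∑ i, ((crs src dst Y ∩ F i) \ D i).card :=
        sum_le_sum fun i _ => hV i Y (hY i)
      rw [hf.card_split _ D hDF]
      split_ifs at hn hlow <;> omega

/-- **Reducible families.**  If the boundary values of the variants are boundary values of the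
parts, then there is a nowhere-zero flow. -/
theorem FamW.red (h : MinCx src dst) (hf : FamW src dst F I W) {D C : ι → Finset E}
    (hDF : ∀ i, D i ⊆ F i) (hCF : ∀ i, C i ⊆ F i) (hDC : ∀ i, Disjoint (D i) (C i))
    (hne : ∃ i, ∃ e, e ∈ D i ∪ C i) (hbr : Br src dst (univ.biUnion D) (univ.biUnion C))
    (flow : ∀ f : ι → E → K4, (∀ i e, e ∉ F i → f i e = 0) → (∀ i, ∀ e ∈ D i, f i e = 0) →
      (∀ i, ∀ e ∈ F i, e ∉ D i → e ∉ C i → f i e ≠ 0) →
      (∀ i, ∀ v ∈ I i, bd src dst (f i) v = 0) →
      ∃ g : ι → E → K4, (∀ i e, e ∉ F i → g i e = 0) ∧ (∀ i, ∀ e ∈ F i, g i e ≠ 0) ∧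
        (∀ i, ∀ v ∈ I i, bd src dst (g i) v = 0) ∧
        ∀ w ∈ W, ∑ i, bd src dst (g i) w = ∑ i, bd src dst (f i) w) : False := by
  have hdisj : Disjoint (univ.biUnion D) (univ.biUnion C) := by
    refine disjoint_left.mpr fun e he he2 => ?_
    obtain ⟨i, _, hi⟩ := mem_biUnion.mp he
    obtain ⟨j, _, hj⟩ := mem_biUnion.mp he2
    by_cases hij : i = j
    · subst hij; exact disjoint_left.mp (hDC i) hi hj
    · exact disjoint_left.mp (hf.dF i j hij) (hDF i hi) (hCF j hj)
  obtain ⟨φ, p0, p1, p2⟩ := h.crit _ _ hdisj (by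
    obtain ⟨i, e, he⟩ := hne
    refine ⟨e, ?_, ?_⟩
    · rcases mem_union.mp he with h1 | h1
      · exact mem_union_left _ (mem_biUnion.mpr ⟨i, mem_univ _, h1⟩)
      · exact mem_union_right _ (mem_biUnion.mpr ⟨i, mem_univ _, h1⟩)
    · rcases mem_union.mp he with h1 | h1
      · exact (hf.ends i e (hDF i h1)).1
      · exact (hf.ends i e (hCF i h1)).1) hbr
  have hnotin : ∀ i j e, e ∈ F i → i ≠ j → e ∉ F j := fun i j e he hij he2 =>
    disjoint_left.mp (hf.dF i j hij) he he2
  -- parts of the flow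
  have hint : ∀ i, ∀ v ∈ I i, bd src dst (rs (F i) φ) v = 0 := by
    intro i v hv
    rw [← p0 v]
    refine bd_loopfree _ _ _ fun e hl he => ?_
    have : e ∈ F i := hf.clos i v hv e hl he
    simp [rs, this]
  obtain ⟨g, g0, g1, g2, g3⟩ := flow (fun i => rs (F i) φ)
    (fun i e he => by simp [rs, he])
    (fun i e he => by
      have := p1 e (mem_biUnion.mpr ⟨i, mem_univ _, he⟩)
      simp [rs, this])
    (fun i e he hD hC => by
      have h1 : φ e ≠ 0 := by
        refine p2 e (fun h2 => ?_) (fun h2 => ?_)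
        · obtain ⟨j, _, hj⟩ := mem_biUnion.mp h2
          by_cases hij : i = j
          · subst hij; exact hD hj
          · exact hnotin i j e he hij (hDF j hj)
        · obtain ⟨j, _, hj⟩ := mem_biUnion.mp h2
          by_cases hij : i = j
          · subst hij; exact hC hj
          · exact hnotin i j e he hij (hCF j hj)
      simpa [rs, he] using h1) hint
  set R : Finset E := (univ.biUnion F)ᶜ with hR
  have mR : ∀ e, e ∈ R ↔ ∀ i, e ∉ F i := by intro e; rw [hR]; simp
  -- the flow outside the parts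
  have hsplit : φ = rs R φ + fun e => ∑ i, rs (F i) φ e := by
    funext e
    rw [Pi.add_apply]
    by_cases he : ∃ i, e ∈ F i
    · obtain ⟨i, hi⟩ := he
      have h1 : e ∉ R := fun h2 => (mR e).mp h2 i hi
      rw [sum_eq_single i]
      · simp [rs, h1, hi]
      · intro j _ hj
        simp [rs, hnotin i j e hi (Ne.symm hj)]
      · intro h2; exact absurd (mem_univ i) h2
    · push Not at he
      have h1 : e ∈ R := (mR e).mpr he
      rw [sum_eq_zero (fun i _ => by simp [rs, he i])]
      simp [rs, h1]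
  refine h.nf ⟨rs R φ + fun e => ∑ i, g i e, fun v => ?_, fun e he => absurd he (notMem_empty _),
    fun e _ _ => ?_⟩
  · have e1 := p0 v
    rw [hsplit, bd_add, bd_sum] at e1
    rw [bd_add, bd_sum]
    have e2 : bd src dst (rs R (rs R φ + fun e => ∑ i, rs (F i) φ e)) v = bd src dst (rs R φ) v := by
      rw [← hsplit]
    -- compare the sums over the parts
    have e3 : ∑ i, bd src dst (g i) v = ∑ i, bd src dst (rs (F i) φ) v := by
      by_cases hW : v ∈ W
      · exact g3 v hW
      · refine sum_congr rfl fun i _ => ?_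
        by_cases hI : v ∈ I i
        · rw [g2 i v hI, hint i v hI]
        · have h5 : ∀ f : E → K4, (∀ e, e ∉ F i → f e = 0) → bd src dst f v = 0 := by
            intro f hf0
            refine bd_zero_of _ _ fun e he => hf0 e fun he2 => ?_
            obtain ⟨_, h3, h4⟩ := hf.ends i e he2
            rw [mem_union] at h3 h4
            rcases he with he | he
            · rw [he] at h3; tauto
            · rw [he] at h4; tauto
          rw [h5 _ (g0 i), h5 _ (fun e he => by simp [rs, he])]
    rw [e3]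
    clear e2
    have e4 : bd src dst (rs R φ) v + ∑ i, bd src dst (rs (F i) φ) v = bd src dst φ v := by
      conv_rhs => rw [hsplit, bd_add, bd_sum]
    rw [e4]; exact p0 v
  · rw [Pi.add_apply]
    by_cases he : ∃ i, e ∈ F i
    · obtain ⟨i, hi⟩ := he
      have h1 : e ∉ R := fun h2 => (mR e).mp h2 i hi
      rw [sum_eq_single i]
      · simp only [rs, h1, if_false, zero_add]
        exact g1 i e hi
      · intro j _ hj
        exact g0 j e (hnotin i j e hi (Ne.symm hj))
      · intro h2; exact absurd (mem_univ i) h2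
    · push Not at he
      have h1 : e ∈ R := (mR e).mpr he
      rw [sum_eq_zero (fun i _ => g0 i e (he i)), add_zero]
      simp only [rs, h1, if_true]
      refine p2 e (fun h2 => ?_) (fun h2 => ?_)
      · obtain ⟨j, _, hj⟩ := mem_biUnion.mp h2
        exact he j (hDF j hj)
      · obtain ⟨j, _, hj⟩ := mem_biUnion.mp h2
        exact he j (hCF j hj)

end

end Pool.Agent.TH497.T4
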