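import Pool.Agent.TH462.T4.Sem
import Pool.Agent.TH497.T4.RedFam

set_option autoImplicit false
set_option linter.unusedSectionVars false
set_option synthInstance.maxHeartbeats 400000
set_option synthInstance.maxSize 2048

/-! # Reducible parts and forgetting a root -/

namespace Pool.Agent.TH497.T4

open Finset Pool.Agent.TH462.T4 Pool.Agent.TH676.T4

variable {V E : Type} [Fintype V] [DecidableEq V] [Fintype E] [DecidableEq E]

theorem mem_img {φ : Fin 5 → V} {j : ℕ} {v : V} :
    v ∈ img φ j ↔ ∃ i : Fin 5, j.testBit i = true ∧ φ i = v := by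
  simp [img]

theorem mask_exists5 : ∀ b0 b1 b2 b3 b4 : Bool, ∃ j < 32, Nat.testBit j 0 = b0 ∧
    Nat.testBit j 1 = b1 ∧ Nat.testBit j 2 = b2 ∧ Nat.testBit j 3 = b3 ∧ Nat.testBit j 4 = b4 := by
  decide

theorem mask_exists (p : Fin 5 → Bool) : ∃ j < 32, ∀ i : Fin 5, Nat.testBit j i = p i := by
  obtain ⟨j, hj, h0, h1, h2, h3, h4⟩ := mask_exists5 (p 0) (p 1) (p 2) (p 3) (p 4)
  refine ⟨j, hj, fun i => ?_⟩
  fin_cases i
  · exact h0
  · exact h1
  · exact h2
  · exact h3
  · exact h4

theorem mask_ext : ∀ j < 32, ∀ k < 32, (∀ i : Fin 5, Nat.testBit j i = Nat.testBit k i) →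
    j = k := by decide

section
variable {src dst : E → V} {φ : Fin 5 → V} {a : ℕ} {F : Finset E} {I : Finset V}

theorem img_and_sub (j : ℕ) : img φ (j &&& a) ⊆ img φ a := by
  intro v hv
  obtain ⟨i, h1, h2⟩ := mem_img.mp hv
  rw [Nat.testBit_and, Bool.and_eq_true] at h1
  exact mem_img.mpr ⟨i, h1.2, h2⟩

theorem crs_part (hg : Geo src dst φ a F I) {Y Y' : Finset V}
    (h : ∀ v ∈ I ∪ img φ a, (v ∈ Y ↔ v ∈ Y')) : crs src dst Y ∩ F = crs src dst Y' ∩ F := by
  ext e
  rw [mem_inter, mem_inter]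
  refine and_congr_left fun he => ?_
  obtain ⟨_, h3, h4⟩ := hg.ends e he
  rw [mem_crs, mem_crs, h _ h3, h _ h4]

theorem mem_img_of (hg : Geo src dst φ a F I) {j : ℕ} {i : Fin 5} (ha : a.testBit i = true) :
    φ i ∈ img φ (j &&& a) ↔ j.testBit i = true := by
  rw [mem_img]
  constructor
  · rintro ⟨k, h1, h2⟩
    rw [Nat.testBit_and, Bool.and_eq_true] at h1
    have := hg.inj _ _ h1.2 ha h2
    rw [← this]; exact h1.1
  · intro h
    exact ⟨i, by rw [Nat.testBit_and, h, ha]; rfl, rfl⟩

/-- the mask of a set of roots -/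
theorem exists_mask (J : Finset V) (hJ : J ⊆ img φ a) :
    ∃ j < 32, img φ (j &&& a) = J := by
  obtain ⟨j, hj, hj2⟩ := mask_exists (fun i => decide (φ i ∈ J))
  refine ⟨j, hj, ?_⟩
  ext v
  rw [mem_img]
  constructor
  · rintro ⟨i, h1, h2⟩
    rw [Nat.testBit_and, Bool.and_eq_true, hj2] at h1
    rw [← h2]; exact of_decide_eq_true h1.1
  · intro hv
    obtain ⟨i, h1, h2⟩ := mem_img.mp (hJ hv)
    refine ⟨i, ?_, h2⟩
    rw [Nat.testBit_and, hj2, h1, h2]
    simp [hv]

theorem nis_img (hg : Geo src dst φ a F I) {w : V} (hw : w ∈ img φ a) : Nis src dst w := by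
  obtain ⟨e, he, h⟩ := hg.inc w (mem_union_right _ hw)
  exact ⟨e, (hg.ends e he).1, h⟩

theorem card_two {j : ℕ} (hj : j < 32) (hg : Geo src dst φ a F I)
    (h : two (a &&& j) = true) : 2 ≤ (img φ (j &&& a)).card := by
  obtain ⟨i, k, hik, h1, h2⟩ := two_spec (a &&& j) (lt_of_le_of_lt Nat.and_le_right hj) h
  rw [Nat.testBit_and, Bool.and_eq_true] at h1 h2
  have h3 : φ i ∈ img φ (j &&& a) := (mem_img_of hg h1.1).mpr h1.2
  have h4 : φ k ∈ img φ (j &&& a) := (mem_img_of hg h2.1).mpr h2.2
  exact one_lt_card.mpr ⟨_, h3, _, h4, fun h5 => hik (hg.inj _ _ h1.1 h2.1 h5)⟩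

theorem xor31 : ∀ j < 32, ∀ i : Fin 5, Nat.testBit (31 ^^^ j) i = !Nat.testBit j i := by decide

theorem img_compl {j : ℕ} (hj : j < 32) (hg : Geo src dst φ a F I) :
    img φ a \ img φ (j &&& a) = img φ ((31 ^^^ j) &&& a) := by
  ext v
  rw [mem_sdiff, mem_img]
  constructor
  · rintro ⟨⟨i, h1, h2⟩, h3⟩
    rw [← h2] at h3 ⊢
    rw [mem_img_of hg h1] at h3 ⊢
    rw [xor31 j hj]
    simpa using h3
  · intro h
    obtain ⟨i, h1, h2⟩ := mem_img.mp h
    rw [Nat.testBit_and, Bool.and_eq_true] at h1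
    refine ⟨⟨i, h1.2, h2⟩, ?_⟩
    rw [← h2, mem_img_of hg h1.2]
    rw [xor31 j hj] at h1
    simpa using h1.1

/-- **Reducible parts.** -/
theorem red (h : MinCx src dst) {S S2 : ℕ → Prop} {cu cl : ℕ → ℕ} {D C : Finset E}
    (ha : a < 32) (hg : Geo src dst φ a F I) (hp : SP src dst φ a S cu F I)
    (hv : SV src dst φ a S2 cl F I D C) (hne : (D ∪ C).Nonempty) (hS : ∀ c, S2 c → S c)
    (hc : ∀ j < 32, j &&& a ≠ 0 → j &&& a ≠ a → 2 ≤ cl j + (base a j - cu j)) : False := by
  classical
  choose! mk mk1 mk2 using exists_mask (φ := φ) (a := a)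
  have hf : FamW src dst (fun _ : Unit => F) (fun _ : Unit => I) (img φ a) :=
    { dF := fun i j hij => absurd (Subsingleton.elim i j) hij
      dI := fun i j hij => absurd (Subsingleton.elim i j) hij
      dW := fun _ => hg.disj
      ends := fun _ => hg.ends
      clos := fun _ => hg.closed }
  have key : ∀ Y : Finset V, crs src dst Y ∩ F =
      crs src dst (img φ (mk (Y ∩ img φ a) &&& a) ∪ (Y ∩ I)) ∩ F := by
    intro Y
    refine crs_part hg fun v hv => ?_
    rw [mk2 _ inter_subset_right, mem_union, mem_inter, mem_inter]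
    rw [mem_union] at hv
    tauto
  have hdis : ∀ Y : Finset V, Disjoint (crs src dst Y) C → Disjoint (crs src dst Y ∩ F) C :=
    fun Y hY => disjoint_of_subset_left inter_subset_left hY
  have hbr : Br src dst (univ.biUnion (fun _ : Unit => D)) (univ.biUnion (fun _ : Unit => C)) := by
    refine hf.br h (D := fun _ : Unit => D) (C := fun _ : Unit => C) (fun _ => hv.DF)
      (fun w hw => nis_img hg hw) (fun _ J => cl (mk J)) (fun _ J => cu (mk J)) ?_ ?_ ?_ ?_
    · intro _ Y hY
      have h1 := hdis Y hY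
      rw [key Y] at h1
      have h2 := hv.cut _ (mk1 _ inter_subset_right) (Y ∩ I) inter_subset_right h1
      rw [← key Y] at h2
      exact h2
    · intro _ Y hY hY0
      have h1 := hdis Y hY
      rw [key Y] at h1
      have h2 := hv.triv _ (mk1 (Y ∩ img φ a) inter_subset_right) ?_ (Y ∩ I) inter_subset_right h1
      · rw [← key Y] at h2
        exact h2
      · left
        have h3 := mk2 (Y ∩ img φ a) inter_subset_right
        rw [hY0] at h3 ⊢
        refine mask_ext _ (lt_of_le_of_lt Nat.and_le_right ha) _ (by norm_num) fun i => ?_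
        by_contra h4
        have h5 : (mk ∅ &&& a).testBit i = true := by
          cases h6 : (mk ∅ &&& a).testBit i
          · rw [h6] at h4; simp at h4
          · rfl
        have h7 : φ i ∈ img φ (mk ∅ &&& a) := mem_img.mpr ⟨i, h5, rfl⟩
        rw [h3] at h7
        exact absurd h7 (notMem_empty _)
    · intro _ J hJ
      obtain ⟨Y, hY, h1⟩ := hp.cut _ (mk1 J hJ)
      refine ⟨Y, hY, ?_⟩
      rw [mk2 J hJ] at h1
      exact h1
    · intro J hJ hJ0 hJ1
      have e1 := mk2 J hJ
      have h1 : mk J &&& a ≠ 0 := by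
        intro h2
        rw [h2] at e1
        obtain ⟨x, hx⟩ := hJ0
        rw [← e1, mem_img] at hx
        obtain ⟨i, hi, _⟩ := hx
        simp at hi
      have h2 : mk J &&& a ≠ a := by
        intro h3
        rw [h3] at e1
        obtain ⟨x, hx⟩ := hJ1
        rw [← e1, sdiff_self] at hx
        exact absurd hx (notMem_empty _)
      have h3 := hc (mk J) (mk1 J hJ) h1 h2
      simp only [univ_unique, sum_singleton]
      refine le_trans h3 (Nat.add_le_add_left (Nat.sub_le_sub_right ?_ _) _)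
      unfold base
      split_ifs with h4 h5
      · exact le_rfl
      · exfalso
        rw [Bool.and_eq_true] at h4
        refine h5 ⟨?_, ?_⟩
        · rw [← e1]
          exact card_two (mk1 J hJ) hg h4.1
        · rw [← e1, img_compl (mk1 J hJ) hg]
          exact card_two (lt_of_le_of_lt (Nat.le_of_lt_succ (Nat.xor_lt_two_pow (n := 5)
            (by norm_num) (mk1 J hJ))) (by norm_num)) hg h4.2
      · norm_num
      · exact le_rfl
  refine hf.red h (D := fun _ : Unit => D) (C := fun _ : Unit => C) (fun _ => hv.DF)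
    (fun _ => hv.CF) (fun _ => hv.DC) ⟨(), hne⟩ hbr ?_
  intro f f0 f1 f2 f3
  obtain ⟨c, hc1, hc2⟩ := hv.up (f ()) (fun e he => by
      refine ⟨?_, ?_⟩
      · by_contra h1; exact he (f0 () e h1)
      · intro h1; exact he (f1 () e h1))
    (fun e he hD hC => f2 () e he hD hC) (fun w hw => f3 () w hw)
  obtain ⟨g, g1, g2⟩ := hp.flow c (hS c hc1)
  refine ⟨fun _ => g, fun _ e he => ?_, fun _ e he => (g1 e).mpr he, fun _ v hv2 => ?_,
    fun w hw => ?_⟩
  · by_contra h1; exact he ((g1 e).mp h1)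
  · rw [g2, ← hc2]; exact f3 () v hv2
  · simp only [univ_unique, sum_singleton]
    rw [g2, ← hc2]

/-! ### Forgetting the root with label 4 -/

theorem bit15 : ∀ a < 32, ∀ i : Fin 5, Nat.testBit (a &&& 15) i = (Nat.testBit a i && decide (i ≠ 4)) := by
  decide

theorem bit16 : ∀ a < 32, ∀ i : Fin 5, Nat.testBit (a ||| 16) i = (Nat.testBit a i || decide (i = 4)) := by
  decide

theorem lt15 : ∀ a < 32, a &&& 15 < 32 := by decide

theorem lt16 : ∀ a < 32, a ||| 16 < 32 := by decide

theorem mem_img15 (ha : a < 32) {v : V} :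
    v ∈ img φ (a &&& 15) ↔ ∃ i : Fin 5, a.testBit i = true ∧ i ≠ 4 ∧ φ i = v := by
  rw [mem_img]
  refine exists_congr fun i => ?_
  rw [bit15 a ha, Bool.and_eq_true, decide_eq_true_iff, and_assoc]

theorem phi4_notMem15 (ha : a < 32) (hg : Geo src dst φ a F I) (h4 : a.testBit 4 = true) :
    φ 4 ∉ img φ (a &&& 15) := by
  rw [mem_img15 ha]
  rintro ⟨i, h1, h2, h3⟩
  exact h2 (hg.inj _ _ h1 h4 h3)

theorem img_split (ha : a < 32) (h4 : a.testBit 4 = true) :
    img φ a = insert (φ 4) (img φ (a &&& 15)) := by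
  ext v
  rw [mem_insert, mem_img15 ha, mem_img]
  constructor
  · rintro ⟨i, h1, h2⟩
    by_cases hi : i = 4
    · left; rw [← h2, hi]
    · right; exact ⟨i, h1, hi, h2⟩
  · rintro (h | ⟨i, h1, _, h3⟩)
    · exact ⟨4, h4, h.symm⟩
    · exact ⟨i, h1, h3⟩

theorem phi4_notMemI (hg : Geo src dst φ a F I) (h4 : a.testBit 4 = true) : φ 4 ∉ I :=
  fun h => disjoint_left.mp hg.disj h (mem_img.mpr ⟨4, h4, rfl⟩)

/-- **Forgetting a root**, geometry -/
theorem Geo.forget (ha : a < 32) (hg : Geo src dst φ a F I) (h4 : a.testBit 4 = true)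
    (hcl : ∀ e, src e ≠ dst e → (src e = φ 4 ∨ dst e = φ 4) → e ∈ F) :
    Geo src dst φ (a &&& 15) F (insert (φ 4) I) where
  inj := by
    intro i j hi hj
    rw [bit15 a ha, Bool.and_eq_true] at hi hj
    exact hg.inj i j hi.1 hj.1
  ends := by
    intro e he
    have h := hg.ends e he
    rw [img_split ha h4] at h
    simp only [mem_union, mem_insert] at h ⊢
    tauto
  closed := by
    intro x hx e hl he
    rw [mem_insert] at hx
    rcases hx with h | h
    · rw [h] at he; exact hcl e hl he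
    · exact hg.closed x h e hl he
  disj := by
    rw [disjoint_insert_left]
    refine ⟨phi4_notMem15 ha hg h4, ?_⟩
    refine disjoint_of_subset_right ?_ hg.disj
    rw [img_split ha h4]; exact subset_insert _ _
  inc := by
    intro x hx
    refine hg.inc x ?_
    rw [img_split ha h4]
    simp only [mem_union, mem_insert] at hx ⊢
    tauto

theorem and15a : ∀ a < 32, ∀ j < 32, (j &&& 15) &&& a = j &&& (a &&& 15) := by decide

theorem or16a : ∀ a < 32, Nat.testBit a 4 = true → ∀ j < 32,
    ((j ||| 16) &&& a) &&& 15 = j &&& (a &&& 15) ∧ Nat.testBit ((j ||| 16) &&& a) 4 = true := by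
  decide

theorem img_or16 (ha : a < 32) (h4 : a.testBit 4 = true) {j : ℕ} (hj : j < 32) :
    img φ ((j ||| 16) &&& a) = insert (φ 4) (img φ (j &&& (a &&& 15))) := by
  have h := or16a a ha h4 j hj
  rw [img_split (lt_of_le_of_lt Nat.and_le_right ha) h.2, h.1]

/-- **Forgetting a root**, flows -/
theorem SP.forget {S : ℕ → Prop} {cu : ℕ → ℕ} (ha : a < 32) (h4 : a.testBit 4 = true)
    (hp : SP src dst φ a S cu F I) :
    SP src dst φ (a &&& 15) (fun c => S c ∧ vec c 4 = 0)
      (fun j => min (cu (j &&& 15)) (cu (j ||| 16))) F (insert (φ 4) I) where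
  flow := fun c hc => hp.flow c hc.1
  cut := by
    intro j hj
    obtain ⟨Y1, hY1, h1⟩ := hp.cut _ (lt15 j hj)
    obtain ⟨Y2, hY2, h2⟩ := hp.cut _ (lt16 j hj)
    rw [and15a a ha j hj] at h1
    rw [img_or16 ha h4 hj] at h2
    rcases le_total (cu (j &&& 15)) (cu (j ||| 16)) with hle | hle
    · refine ⟨Y1, hY1.trans (subset_insert _ _), ?_⟩
      simp only [min_eq_left hle]
      exact h1
    · refine ⟨insert (φ 4) Y2, insert_subset_insert _ hY2, ?_⟩
      simp only [min_eq_right hle]
      rw [insert_union, ← union_insert] at h2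
      exact h2

theorem and15zero : ∀ a < 32, ∀ j < 32, j &&& (a &&& 15) = 0 → (j &&& 15) &&& a = 0 := by decide

theorem or16full : ∀ a < 32, Nat.testBit a 4 = true → ∀ j < 32, j &&& (a &&& 15) = a &&& 15 →
    (j ||| 16) &&& a = a := by decide

/-- **Forgetting a root**, variants -/
theorem SV.forget {S : ℕ → Prop} {cl : ℕ → ℕ} {D C : Finset E} (ha : a < 32)
    (h4 : a.testBit 4 = true) (hv : SV src dst φ a S cl F I D C)
    (hs : ∀ c, S c → ext φ (vec c) (φ 4) = 0 → vec c 4 = 0) (h16 : 2 ≤ cl 16)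
    (h15 : 2 ≤ cl (a &&& 15)) :
    SV src dst φ (a &&& 15) (fun c => S c ∧ vec c 4 = 0)
      (fun j => min (cl (j &&& 15)) (cl (j ||| 16))) F (insert (φ 4) I) D C where
  DF := hv.DF
  CF := hv.CF
  DC := hv.DC
  up := by
    intro f f1 f2 f3
    obtain ⟨c, h1, h2⟩ := hv.up f f1 f2 (fun w hw => f3 w (mem_insert_of_mem hw))
    refine ⟨c, ⟨h1, hs c h1 ?_⟩, h2⟩
    rw [← h2]; exact f3 _ (mem_insert_self _ _)
  cut := by
    intro j hj Y hY hd
    by_cases hm : φ 4 ∈ Y
    · refine le_trans (min_le_right _ _) ?_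
      have e1 : img φ (j &&& (a &&& 15)) ∪ Y = img φ ((j ||| 16) &&& a) ∪ Y.erase (φ 4) := by
        rw [img_or16 ha h4 hj, insert_union, ← union_insert, insert_erase hm]
      rw [e1] at hd ⊢
      exact hv.cut _ (lt16 j hj) _ (by rw [subset_insert_iff] at hY; exact hY) hd
    · refine le_trans (min_le_left _ _) ?_
      rw [← and15a a ha j hj] at hd ⊢
      exact hv.cut _ (lt15 j hj) _ (by
        intro x hx
        rcases mem_insert.mp (hY hx) with h | h
        · exact absurd (h ▸ hx) hm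
        · exact h) hd
  triv := by
    intro j hj h0 Y hY hd
    have hY1 : φ 4 ∉ Y → Y ⊆ I := by
      intro hm x hx
      rcases mem_insert.mp (hY hx) with h | h
      · exact absurd (h ▸ hx) hm
      · exact h
    have hY2 : Y.erase (φ 4) ⊆ I := by rw [subset_insert_iff] at hY; exact hY
    rcases h0 with h0 | h0
    · by_cases hm : φ 4 ∈ Y
      · have h160 := or16a a ha h4 0 (by norm_num)
        have e1 : img φ (j &&& (a &&& 15)) ∪ Y = img φ (16 &&& a) ∪ Y.erase (φ 4) := by
          have e2 : img φ (16 &&& a) = insert (φ 4) (img φ 0) := by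
            have := img_or16 (φ := φ) ha h4 (j := 0) (by norm_num)
            simpa using this
          rw [h0, e2, insert_union, ← union_insert, insert_erase hm]
        rw [e1] at hd ⊢
        have := hv.cut 16 (by norm_num) _ hY2 hd
        omega
      · rw [← and15a a ha j hj] at hd ⊢
        exact hv.triv _ (lt15 j hj) (Or.inl (and15zero a ha j hj h0)) _ (hY1 hm) hd
    · by_cases hm : φ 4 ∈ Y
      · have e1 : img φ (j &&& (a &&& 15)) ∪ Y = img φ ((j ||| 16) &&& a) ∪ Y.erase (φ 4) := by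
          rw [img_or16 ha h4 hj, insert_union, ← union_insert, insert_erase hm]
        rw [e1] at hd ⊢
        exact hv.triv _ (lt16 j hj) (Or.inr (or16full a ha h4 j hj h0)) _ hY2 hd
      · have e1 : img φ (j &&& (a &&& 15)) = img φ ((a &&& 15) &&& a) := by
          rw [h0]
          have : (a &&& 15) &&& a = a &&& 15 := by
            have h9 : ∀ a < 32, (a &&& 15) &&& a = a &&& 15 := by decide
            exact h9 a ha
          rw [this]
        rw [e1] at hd ⊢
        have := hv.cut (a &&& 15) (lt15 a ha) _ (hY1 hm) hd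
        omega

theorem ext_of_inj (hφ : ∀ i, φ i = φ 4 → i = 4) (σ : Fin 5 → K4) : ext φ σ (φ 4) = σ 4 := by
  unfold TH462.T4.ext
  rw [sum_eq_single 4]
  · simp
  · intro b _ hb
    rw [if_neg (fun h => hb (hφ b h))]
  · intro h; exact absurd (mem_univ _) h

/-- discharges the hypothesis `hs` of `SV.forget` when the labels are distinct vertices -/
theorem hs_of_inj (hφ : Function.Injective φ) (S : ℕ → Prop) :
    ∀ c, S c → ext φ (vec c) (φ 4) = 0 → vec c 4 = 0 := by
  intro c _ h
  rwa [ext_of_inj (fun i hi => hφ hi)] at h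

/-- discharges the hypothesis `hs` of `SV.forget` when the vectors are zero outside the mask -/
theorem hs_of_supp (h4 : a.testBit 4 = true) (hg : Geo src dst φ a F I) (S : ℕ → Prop)
    (hS : ∀ c, S c → ∀ i : Fin 5, a.testBit i = false → vec c i = 0) :
    ∀ c, S c → ext φ (vec c) (φ 4) = 0 → vec c 4 = 0 := by
  intro c hc h
  rw [← h]
  unfold TH462.T4.ext
  rw [sum_eq_single 4]
  · simp
  · intro b _ hb
    by_cases h1 : φ b = φ 4
    · rw [if_pos h1]
      refine hS c hc b ?_
      cases h2 : a.testBit b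
      · rfl
      · exact absurd (hg.inj _ _ h2 h4 h1) hb
    · rw [if_neg h1]
  · intro h; exact absurd (mem_univ _) h

end

end Pool.Agent.TH497.T4
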