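import Pool.Agent.TH676.T4.Cut

set_option autoImplicit false
set_option linter.unusedSectionVars false
set_option synthInstance.maxHeartbeats 400000
set_option synthInstance.maxSize 2048

/-! # Vertex cuts of a minimal counterexample -/

namespace Pool.Agent.TH497.T4

open Finset Pool.Agent.TH462.T4 Pool.Agent.TH676.T4

variable {V E : Type} [Fintype V] [DecidableEq V] [Fintype E] [DecidableEq E]

/-- the restriction of `f` to `F` -/
def rs (F : Finset E) (f : E → K4) (e : E) : K4 := if e ∈ F then f e else 0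

theorem rs_add_compl (F : Finset E) (f : E → K4) : rs F f + rs Fᶜ f = f := by
  funext e
  by_cases h : e ∈ F <;> simp [rs, h]

theorem bd_rs_compl {src dst : E → V} (F : Finset E) (f : E → K4) (v : V)
    (h : bd src dst f v = 0) : bd src dst (rs Fᶜ f) v = bd src dst (rs F f) v := by
  rw [← rs_add_compl F f, bd_add] at h
  have h2 := congrArg (bd src dst (rs F f) v + ·) h
  simp only [← add_assoc, K4.add_self, add_zero, zero_add] at h2
  exact h2

theorem bd_zero_of {src dst : E → V} (f : E → K4) (v : V)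
    (h : ∀ e, (src e = v ∨ dst e = v) → f e = 0) : bd src dst f v = 0 := by
  unfold bd
  refine sum_eq_zero fun e _ => ?_
  by_cases h1 : src e = v <;> by_cases h2 : dst e = v <;> simp [h1, h2, h e]

theorem bd_eq_of {src dst : E → V} (f g : E → K4) (v : V)
    (h : ∀ e, (src e = v ∨ dst e = v) → f e = g e) : bd src dst f v = bd src dst g v := by
  unfold bd
  refine sum_congr rfl fun e _ => ?_
  by_cases h1 : src e = v <;> by_cases h2 : dst e = v <;> simp [h1, h2, h e]

theorem bd_hom {src dst : E → V} (σ : K4 →+ K4) (f : E → K4) (v : V) :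
    bd src dst (fun e => σ (f e)) v = σ (bd src dst f v) := by
  unfold bd
  rw [map_sum]
  refine sum_congr rfl fun e _ => ?_
  rw [map_add]
  by_cases h1 : src e = v <;> by_cases h2 : dst e = v <;> simp [h1, h2]

/-- every edge with an end in `I` has both ends in `I ∪ Z` -/
def Closed (src dst : E → V) (Z I : Finset V) : Prop :=
  ∀ e, (src e ∈ I ∨ dst e ∈ I) → src e ∈ I ∪ Z ∧ dst e ∈ I ∪ Z

/-- the edges with an end in `I` -/
def tch (src dst : E → V) (I : Finset V) : Finset E :=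
  univ.filter (fun e => src e ∈ I ∨ dst e ∈ I)

theorem mem_tch {src dst : E → V} {I : Finset V} {e : E} :
    e ∈ tch src dst I ↔ (src e ∈ I ∨ dst e ∈ I) := by simp [tch]

/-- two flows which agree on `Z` up to an automorphism -/
theorem glueZ {src dst : E → V} {Z I : Finset V} (hc : Closed src dst Z I) (σ : K4 →+ K4)
    (hσ : ∀ x, σ x = 0 → x = 0) {f1 f2 : E → K4} (h1 : ∀ v, bd src dst f1 v = 0)
    (h2 : ∀ v, bd src dst f2 v = 0) (n1 : ∀ e ∈ tch src dst I, f1 e ≠ 0)
    (n2 : ∀ e, e ∉ tch src dst I → f2 e ≠ 0)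
    (ha : ∀ z ∈ Z, z ∉ I → σ (bd src dst (rs (tch src dst I) f1) z) =
      bd src dst (rs (tch src dst I) f2) z) : FlowOn src dst ∅ ∅ := by
  refine ⟨rs (tch src dst I) (fun e => σ (f1 e)) + rs (tch src dst I)ᶜ f2, fun v => ?_,
    fun e he => absurd he (notMem_empty _), fun e _ _ => ?_⟩
  · have e1 : rs (tch src dst I) (fun e => σ (f1 e)) = fun e => σ (rs (tch src dst I) f1 e) := by
      funext e
      by_cases h : e ∈ tch src dst I <;> simp [rs, h]
    rw [bd_add, e1, bd_hom, bd_rs_compl _ _ _ (h2 v)]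
    by_cases hv : v ∈ I
    · have a1 : bd src dst (rs (tch src dst I) f1) v = 0 := by
        rw [← h1 v]
        refine bd_eq_of _ _ _ fun e he => ?_
        have : e ∈ tch src dst I := mem_tch.mpr (by
          rcases he with he | he
          · exact Or.inl (he ▸ hv)
          · exact Or.inr (he ▸ hv))
        simp [rs, this]
      have a2 : bd src dst (rs (tch src dst I) f2) v = 0 := by
        rw [← h2 v]
        refine bd_eq_of _ _ _ fun e he => ?_
        have : e ∈ tch src dst I := mem_tch.mpr (by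
          rcases he with he | he
          · exact Or.inl (he ▸ hv)
          · exact Or.inr (he ▸ hv))
        simp [rs, this]
      rw [a1, a2, map_zero, add_zero]
    · by_cases hz : v ∈ Z
      · rw [ha v hz hv, K4.add_self]
      · have a3 : ∀ f : E → K4, bd src dst (rs (tch src dst I) f) v = 0 := by
          intro f
          refine bd_zero_of _ _ fun e he => ?_
          have : e ∉ tch src dst I := by
            intro h
            have h5 := hc e (mem_tch.mp h)
            rw [mem_union, mem_union] at h5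
            rcases he with he | he
            · rw [he] at h5; tauto
            · rw [he] at h5; tauto
          simp [rs, this]
        rw [a3, a3, map_zero, add_zero]
  · rw [Pi.add_apply]
    by_cases h : e ∈ tch src dst I
    · have : e ∉ (tch src dst I)ᶜ := by simp [h]
      simp only [rs, h, this, if_true, if_false, add_zero]
      exact fun h3 => n1 e h (hσ _ h3)
    · have : e ∈ (tch src dst I)ᶜ := by simp [h]
      simp only [rs, h, this, if_true, if_false, zero_add]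
      exact n2 e h

/-- a connected component of the graph on `I` -/
theorem comp {src dst : E → V} (I : Finset V) {x : V} (hx : x ∈ I) :
    ∃ K : Finset V, K ⊆ I ∧ x ∈ K ∧
      (∀ e, src e ∈ K → dst e ∈ I → dst e ∈ K) ∧ (∀ e, dst e ∈ K → src e ∈ I → src e ∈ K) ∧
      ∀ Y : Finset V, (∀ e, src e ∈ K → dst e ∈ K → (src e ∈ Y ↔ dst e ∈ Y)) →
        ∀ y ∈ K, (y ∈ Y ↔ x ∈ Y) := by
  classical
  set R : V → V → Prop := fun a b => a ∈ I ∧ b ∈ I ∧
    ∃ e, (src e = a ∧ dst e = b) ∨ (src e = b ∧ dst e = a) with hR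
  set K : Finset V := I.filter (fun y => Relation.ReflTransGen R x y) with hK
  have hmem : ∀ y, y ∈ K ↔ y ∈ I ∧ Relation.ReflTransGen R x y := by
    intro y; rw [hK, mem_filter]
  refine ⟨K, filter_subset _ _, (hmem x).mpr ⟨hx, Relation.ReflTransGen.refl⟩, ?_, ?_, ?_⟩
  · intro e h1 h2
    obtain ⟨h3, h4⟩ := (hmem _).mp h1
    exact (hmem _).mpr ⟨h2, h4.tail ⟨h3, h2, e, Or.inl ⟨rfl, rfl⟩⟩⟩
  · intro e h1 h2
    obtain ⟨h3, h4⟩ := (hmem _).mp h1
    exact (hmem _).mpr ⟨h2, h4.tail ⟨h3, h2, e, Or.inr ⟨rfl, rfl⟩⟩⟩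
  · intro Y hY y hy
    obtain ⟨_, h4⟩ := (hmem _).mp hy
    clear hy
    induction h4 with
    | refl => exact Iff.rfl
    | @tail b c hb hbc ih =>
      obtain ⟨hbI, hcI, e, he⟩ := hbc
      have hbK : b ∈ K := (hmem b).mpr ⟨hbI, hb⟩
      have hcK : c ∈ K := (hmem c).mpr ⟨hcI, hb.tail ⟨hbI, hcI, e, he⟩⟩
      rw [← ih hbI]
      rcases he with ⟨h5, h6⟩ | ⟨h5, h6⟩
      · subst h5; subst h6
        exact (hY e hbK hcK).symm
      · subst h5; subst h6
        exact hY e hcK hbK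

theorem crs_compl {src dst : E → V} (Y : Finset V) : crs src dst Yᶜ = crs src dst Y := by
  ext e
  rw [mem_crs, mem_crs, mem_compl, mem_compl]
  tauto

/-- the vertices of `K` are connected by edges inside `K` -/
def Conn (src dst : E → V) (K : Finset V) : Prop :=
  ∀ Y : Finset V, (∀ e, src e ∈ K → dst e ∈ K → (src e ∈ Y ↔ dst e ∈ Y)) →
    ∀ y ∈ K, ∀ y' ∈ K, (y ∈ Y ↔ y' ∈ Y)

/-- the edge `e` joins `K` and `z` -/
def Att (src dst : E → V) (K : Finset V) (z : V) (e : E) : Prop :=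
  (src e ∈ K ∧ dst e = z) ∨ (dst e ∈ K ∧ src e = z)

theorem Att.side {src dst : E → V} {K : Finset V} {z k : V} {e : E} (h : Att src dst K z e)
    {Y : Finset V} (hY : ∀ y ∈ K, (y ∈ Y ↔ k ∈ Y)) : e ∈ crs src dst Y ↔ ¬ (z ∈ Y ↔ k ∈ Y) := by
  rw [mem_crs]
  rcases h with ⟨h1, h2⟩ | ⟨h1, h2⟩
  · rw [h2, hY _ h1]; tauto
  · rw [h2, hY _ h1]

theorem Att.inj {src dst : E → V} {K : Finset V} {z z' : V} {e : E} (h : Att src dst K z e)
    (h' : Att src dst K z' e) (hz : z ∉ K) : z = z' := by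
  rcases h with ⟨h1, h2⟩ | ⟨h1, h2⟩ <;> rcases h' with ⟨h3, h4⟩ | ⟨h3, h4⟩
  · exact h2.symm.trans h4
  · exact absurd (h2 ▸ h3) hz
  · exact absurd (h2 ▸ h3) hz
  · exact h2.symm.trans h4

/-- paths through `K` -/
theorem link {src dst : E → V} {K : Finset V} {F : Finset E} (hK : Conn src dst K)
    (hF : ∀ e, (src e ∈ K ∨ dst e ∈ K) → e ∈ F) {z z' : V} {e e' : E} (he : Att src dst K z e)
    (he' : Att src dst K z' e') (Y : Finset V) (hz : z ∈ Y) (hz' : z' ∉ Y) :
    ∃ d ∈ F, d ∈ crs src dst Y := by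
  by_contra hc
  push Not at hc
  have h1 : ∀ d, (src d ∈ K ∨ dst d ∈ K) → d ∉ crs src dst Y := fun d hd => hc d (hF d hd)
  have h2 := hK Y (fun d h3 h4 => by
    have h5 := h1 d (Or.inl h3)
    rw [mem_crs, not_not] at h5
    exact h5)
  obtain ⟨k, hk⟩ : ∃ k, k ∈ K := by
    rcases he with ⟨h3, _⟩ | ⟨h3, _⟩
    · exact ⟨_, h3⟩
    · exact ⟨_, h3⟩
  have h6 : ∀ y ∈ K, (y ∈ Y ↔ k ∈ Y) := fun y hy => h2 y hy k hk
  have h7 : e ∉ crs src dst Y := h1 e (by
    rcases he with ⟨h3, _⟩ | ⟨h3, _⟩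
    · exact Or.inl h3
    · exact Or.inr h3)
  have h8 : e' ∉ crs src dst Y := h1 e' (by
    rcases he' with ⟨h3, _⟩ | ⟨h3, _⟩
    · exact Or.inl h3
    · exact Or.inr h3)
  rw [he.side h6, not_not] at h7
  rw [he'.side h6, not_not] at h8
  exact hz' (h8.mpr (h7.mp hz))

/-- one side of a separation is replaced by a star -/
theorem star {src dst : E → V} (h : MinCx src dst) {Z K : Finset V} {F : Finset E}
    (hZ : ∀ z ∈ Z, ∃ z' ∈ Z, z' ≠ z) (hZ0 : Z.Nonempty) (hKZ : ∀ z ∈ Z, z ∉ K)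
    (hK : Conn src dst K) (hKF : ∀ e, (src e ∈ K ∨ dst e ∈ K) → e ∉ F) (en : V → E)
    (hen : ∀ z ∈ Z, Att src dst K z (en z))
    (hl : ∀ Y : Finset V, ∀ z ∈ Z, ∀ z' ∈ Z, z ∈ Y → z' ∉ Y → ∃ e ∈ F, e ∈ crs src dst Y)
    (hY : ∀ Y : Finset V, (∀ z ∈ Z, z ∉ Y) → ∃ Y', crs src dst Y' = crs src dst Y ∩ F)
    (hne : ∃ e, e ∉ F ∧ src e ≠ dst e ∧ ∀ z ∈ Z, e ≠ en z) :
    ∃ f : E → K4, (∀ v, bd src dst f v = 0) ∧ (∀ e ∈ F, f e ≠ 0) ∧
      ∀ z ∈ Z, bd src dst (rs F f) z ≠ 0 := by
  classical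
  set C : Finset E := univ.filter (fun e => src e ∈ K ∧ dst e ∈ K) with hC
  set D : Finset E := univ.filter (fun e => e ∉ F ∧ e ∉ C ∧ ∀ z ∈ Z, e ≠ en z) with hD
  have mC : ∀ e, e ∈ C ↔ src e ∈ K ∧ dst e ∈ K := by intro e; rw [hC]; simp
  have mD : ∀ e, e ∈ D ↔ e ∉ F ∧ e ∉ C ∧ ∀ z ∈ Z, e ≠ en z := by intro e; rw [hD]; simp
  have hdis : Disjoint D C := disjoint_left.mpr fun e h1 h2 => ((mD e).mp h1).2.1 h2
  obtain ⟨z0, hz0⟩ := hZ0
  obtain ⟨k, hk⟩ : ∃ k, k ∈ K := by
    rcases hen z0 hz0 with ⟨h3, _⟩ | ⟨h3, _⟩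
    · exact ⟨_, h3⟩
    · exact ⟨_, h3⟩
  have henK : ∀ z ∈ Z, src (en z) ∈ K ∨ dst (en z) ∈ K := by
    intro z hz
    rcases hen z hz with ⟨h3, _⟩ | ⟨h3, _⟩
    · exact Or.inl h3
    · exact Or.inr h3
  have henF : ∀ z ∈ Z, en z ∉ F := fun z hz => hKF _ (henK z hz)
  have henC : ∀ z ∈ Z, en z ∉ C := by
    intro z hz hc
    rw [mC] at hc
    rcases hen z hz with ⟨h3, h4⟩ | ⟨h3, h4⟩
    · exact hKZ z hz (h4 ▸ hc.2)
    · exact hKZ z hz (h4 ▸ hc.1)
  have henD : ∀ z ∈ Z, en z ∉ D := fun z hz hd => ((mD _).mp hd).2.2 z hz rfl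
  obtain ⟨f, hf0, hf1, hf2⟩ := h.crit D C hdis (by
    obtain ⟨e, h1, h2, h3⟩ := hne
    refine ⟨e, ?_, h2⟩
    rw [mem_union]
    by_cases h4 : e ∈ C
    · exact Or.inr h4
    · exact Or.inl ((mD e).mpr ⟨h1, h4, h3⟩)) (by
    intro Y hYC hcard
    obtain ⟨g, hg⟩ := card_eq_one.mp hcard
    have hone : ∀ e, e ∈ crs src dst Y → e ∉ D → e = g := by
      intro e h1 h2
      have : e ∈ crs src dst Y \ D := mem_sdiff.mpr ⟨h1, h2⟩
      rw [hg] at this
      exact mem_singleton.mp this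
    have hK2 : ∀ y ∈ K, (y ∈ Y ↔ k ∈ Y) := fun y hy => hK Y (fun e h1 h2 => by
      have h3 : e ∉ crs src dst Y := fun h4 => disjoint_left.mp hYC h4 ((mC e).mpr ⟨h1, h2⟩)
      rw [mem_crs, not_not] at h3
      exact h3) y hy k hk
    have hcr : ∀ z ∈ Z, (en z ∈ crs src dst Y ↔ ¬ (z ∈ Y ↔ k ∈ Y)) :=
      fun z hz => (hen z hz).side hK2
    by_cases hA : ∃ z ∈ Z, ¬ (z ∈ Y ↔ k ∈ Y)
    · obtain ⟨z, hz, hzk⟩ := hA
      have h5 : en z = g := hone _ ((hcr z hz).mpr hzk) (henD z hz)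
      obtain ⟨z', hz', hzz⟩ := hZ z hz
      by_cases hzk' : z' ∈ Y ↔ k ∈ Y
      · -- an edge of `F` crosses
        have h6 : ∃ e ∈ F, e ∈ crs src dst Y := by
          by_cases h7 : z ∈ Y
          · exact hl Y z hz z' hz' h7 (by tauto)
          · exact hl Y z' hz' z hz (by tauto) h7
        obtain ⟨e, he, he2⟩ := h6
        have h8 := hone e he2 (fun hd => ((mD e).mp hd).1 he)
        rw [← h5] at h8
        exact henF z hz (h8 ▸ he)
      · have h6 : en z' = g := hone _ ((hcr z' hz').mpr hzk') (henD z' hz')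
        have h7 := hen z' hz'
        rw [h6, ← h5] at h7
        exact hzz ((hen z hz).inj h7 (hKZ z hz)).symm
    · push Not at hA
      have h5 : crs src dst Y \ D = crs src dst Y ∩ F := by
        ext e
        rw [mem_sdiff, mem_inter]
        constructor
        · rintro ⟨h6, h7⟩
          refine ⟨h6, ?_⟩
          by_contra h8
          apply h7
          rw [mD]
          refine ⟨h8, fun h9 => disjoint_left.mp hYC h6 h9, fun z hz h9 => ?_⟩
          rw [h9, hcr z hz] at h6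
          exact h6 (hA z hz)
        · rintro ⟨h6, h7⟩
          exact ⟨h6, fun h8 => ((mD e).mp h8).1 h7⟩
      have h6 : ∃ Y', crs src dst Y' = crs src dst Y ∩ F := by
        by_cases h7 : k ∈ Y
        · obtain ⟨Y', hY'⟩ := hY Yᶜ (fun z hz => by
            rw [mem_compl, not_not]; exact (hA z hz).mpr h7)
          exact ⟨Y', by rw [hY', crs_compl]⟩
        · exact hY Y (fun z hz h8 => h7 ((hA z hz).mp h8))
      obtain ⟨Y', hY'⟩ := h6
      have h7 := h.br Y' (disjoint_empty_right _)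
      rw [sdiff_empty, hY', ← h5] at h7
      exact h7 hcard)
  refine ⟨f, hf0, fun e he => hf2 e (fun hd => ((mD e).mp hd).1 he) (fun hc => ?_), ?_⟩
  · have := (mC e).mp hc
    exact hKF e (Or.inl this.1) he
  · intro z hz
    have hzne : f (en z) ≠ 0 := hf2 _ (henD z hz) (henC z hz)
    have e1 : bd src dst (rs Fᶜ f) z = bd src dst (Pi.single (en z) (f (en z))) z := by
      refine bd_eq_of _ _ _ fun e he => ?_
      by_cases h1 : e = en z
      · subst h1
        rw [Pi.single_eq_same]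
        have : en z ∈ Fᶜ := mem_compl.mpr (henF z hz)
        simp [rs, this]
      · rw [Pi.single_eq_of_ne h1]
        unfold rs
        split_ifs with h2
        · by_cases h3 : e ∈ C
          · have := (mC e).mp h3
            rcases he with he | he
            · exact absurd (he ▸ this.1) (hKZ z hz)
            · exact absurd (he ▸ this.2) (hKZ z hz)
          · by_cases h4 : e ∈ D
            · exact hf1 e h4
            · exfalso
              apply h4
              rw [mD]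
              refine ⟨mem_compl.mp h2, h3, fun z' hz' h5 => ?_⟩
              have h6 := hen z' hz'
              rw [← h5] at h6
              apply h1
              have h7 : z' = z := by
                rcases h6 with ⟨h8, h9⟩ | ⟨h8, h9⟩
                · rcases he with he | he
                  · exact absurd (he ▸ h8) (hKZ z hz)
                  · exact h9.symm.trans he
                · rcases he with he | he
                  · exact h9.symm.trans he
                  · exact absurd (he ▸ h8) (hKZ z hz)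
              rw [h5, h7]
        · rfl
    rw [← bd_rs_compl F f z (hf0 z), e1, bd_single]
    rcases hen z hz with ⟨h8, h9⟩ | ⟨h8, h9⟩
    · have h10 : src (en z) ≠ z := fun h11 => hKZ z hz (h11 ▸ h8)
      rw [if_neg h10, if_pos h9, zero_add]; exact hzne
    · have h10 : dst (en z) ≠ z := fun h11 => hKZ z hz (h11 ▸ h8)
      rw [if_pos h9, if_neg h10, add_zero]; exact hzne

theorem Closed.out {src dst : E → V} {Z I : Finset V} (hc : Closed src dst Z I) :
    Closed src dst Z (I ∪ Z)ᶜ := by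
  intro e he
  have h1 := hc e
  simp only [mem_compl, mem_union] at he h1 ⊢
  tauto

theorem Closed.nin {src dst : E → V} {Z I : Finset V} (hc : Closed src dst Z I) {e : E}
    (he : src e ∈ (I ∪ Z)ᶜ ∨ dst e ∈ (I ∪ Z)ᶜ) : e ∉ tch src dst I := by
  intro h
  have h1 := hc e (mem_tch.mp h)
  simp only [mem_compl] at he
  tauto

theorem Closed.yin {src dst : E → V} {Z I : Finset V} (hc : Closed src dst Z I) (Y : Finset V)
    (hY : ∀ z ∈ Z, z ∉ Y) : crs src dst (Y ∩ I) = crs src dst Y ∩ tch src dst I := by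
  ext e
  rw [mem_inter, mem_crs, mem_crs, mem_tch, mem_inter, mem_inter]
  have h1 := hc e
  have h2 := hY (src e)
  have h3 := hY (dst e)
  rw [mem_union, mem_union] at h1
  by_cases a1 : src e ∈ I <;> by_cases a2 : dst e ∈ I <;> by_cases a3 : src e ∈ Z <;>
    by_cases a4 : dst e ∈ Z <;> simp_all

theorem Closed.yout {src dst : E → V} {Z I : Finset V} (hc : Closed src dst Z I) (Y : Finset V)
    (hY : ∀ z ∈ Z, z ∉ Y) : crs src dst (Y \ I) = crs src dst Y ∩ (tch src dst I)ᶜ := by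
  ext e
  rw [mem_inter, mem_crs, mem_crs, mem_compl, mem_tch, mem_sdiff, mem_sdiff]
  have h1 := hc e
  have h2 := hY (src e)
  have h3 := hY (dst e)
  rw [mem_union, mem_union] at h1
  by_cases a1 : src e ∈ I <;> by_cases a2 : dst e ∈ I <;> by_cases a3 : src e ∈ Z <;>
    by_cases a4 : dst e ∈ Z <;> simp_all

theorem Closed.off {src dst : E → V} {Z I : Finset V} (hc : Closed src dst Z I) {f : E → K4}
    (h : ∀ v, bd src dst f v = 0) {v : V} (hv : v ∉ Z) :
    bd src dst (rs (tch src dst I) f) v = 0 := by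
  by_cases hI : v ∈ I
  · rw [← h v]
    refine bd_eq_of _ _ _ fun e he => ?_
    have : e ∈ tch src dst I := mem_tch.mpr (by
      rcases he with he | he
      · exact Or.inl (he ▸ hI)
      · exact Or.inr (he ▸ hI))
    simp [rs, this]
  · refine bd_zero_of _ _ fun e he => ?_
    have : e ∉ tch src dst I := by
      intro h
      have h5 := hc e (mem_tch.mp h)
      rw [mem_union, mem_union] at h5
      rcases he with he | he
      · rw [he] at h5; tauto
      · rw [he] at h5; tauto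
    simp [rs, this]

theorem Closed.sumZ {src dst : E → V} {Z I : Finset V} (hc : Closed src dst Z I) {f : E → K4}
    (h : ∀ v, bd src dst f v = 0) : ∑ z ∈ Z, bd src dst (rs (tch src dst I) f) z = 0 := by
  rw [← sum_bd src dst (rs (tch src dst I) f)]
  exact sum_subset (subset_univ _) (fun v _ hv => hc.off h hv)

theorem Closed.attach {src dst : E → V} {Z I K : Finset V} (hc : Closed src dst Z I)
    (hK : K ⊆ I) (hK1 : ∀ e, src e ∈ K → dst e ∈ I → dst e ∈ K)
    (hK2 : ∀ e, dst e ∈ K → src e ∈ I → src e ∈ K) (z : V)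
    (hno : ¬ ∃ e, Att src dst K z e) : Closed src dst (Z.erase z) K := by
  intro e he
  have h1 := hc e (by
    rcases he with he | he
    · exact Or.inl (hK he)
    · exact Or.inr (hK he))
  have h2 := hK1 e
  have h3 := hK2 e
  have h4 : ¬ Att src dst K z e := fun h => hno ⟨e, h⟩
  unfold Att at h4
  simp only [mem_union, mem_erase] at h1 ⊢
  by_cases a1 : src e ∈ K <;> by_cases a2 : dst e ∈ K
  · exact ⟨Or.inl a1, Or.inl a2⟩
  · refine ⟨Or.inl a1, Or.inr ⟨fun h5 => h4 (Or.inl ⟨a1, h5⟩), ?_⟩⟩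
    rcases h1.2 with h5 | h5
    · exact absurd (h2 a1 h5) a2
    · exact h5
  · refine ⟨Or.inr ⟨fun h5 => h4 (Or.inr ⟨a2, h5⟩), ?_⟩, Or.inl a2⟩
    rcases h1.1 with h5 | h5
    · exact absurd (h3 a2 h5) a1
    · exact h5
  · tauto

/-- a separation with at most one root -/
theorem sep1 {src dst : E → V} (h : MinCx src dst) {Z I : Finset V} (hc : Closed src dst Z I)
    (hZ : Z.card ≤ 1) {x y : V} (hx : x ∈ I) (nx : Nis src dst x) (hy : y ∉ I) (hy2 : y ∉ Z)
    (ny : Nis src dst y) : False := by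
  obtain ⟨f1, a1, _, a3⟩ := MinCx.con h (tch src dst I)ᶜ (by
    obtain ⟨e, he, he2⟩ := ny
    refine ⟨e, mem_compl.mpr (hc.nin ?_), he⟩
    rw [mem_compl, mem_compl, mem_union, mem_union]
    rcases he2 with he2 | he2
    · left; rw [he2]; tauto
    · right; rw [he2]; tauto)
  obtain ⟨f2, b1, _, b3⟩ := MinCx.con h (tch src dst I) (by
    obtain ⟨e, he, he2⟩ := nx
    refine ⟨e, mem_tch.mpr ?_, he⟩
    rcases he2 with he2 | he2
    · exact Or.inl (he2 ▸ hx)
    · exact Or.inr (he2 ▸ hx))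
  refine h.nf (glueZ hc (AddMonoidHom.id K4) (fun x hx => hx) a1 b1
    (fun e he => a3 e (notMem_empty _) (fun h => (mem_compl.mp h) he))
    (fun e he => b3 e (notMem_empty _) he) ?_)
  intro z hz _
  have hZz : Z = {z} := by
    apply (eq_of_subset_of_card_le (singleton_subset_iff.mpr hz) (by simpa using hZ)).symm
  have c1 := hc.sumZ a1
  have c2 := hc.sumZ b1
  rw [hZz, sum_singleton] at c1 c2
  rw [c1, c2, map_zero]

theorem hom_of {Z : Finset V} (h2 : 2 ≤ Z.card) (h3 : Z.card ≤ 3) (β1 β2 : V → K4)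
    (s1 : ∑ z ∈ Z, β1 z = 0) (s2 : ∑ z ∈ Z, β2 z = 0) (n1 : ∀ z ∈ Z, β1 z ≠ 0)
    (n2 : ∀ z ∈ Z, β2 z ≠ 0) :
    ∃ σ : K4 →+ K4, (∀ x, σ x = 0 → x = 0) ∧ ∀ z ∈ Z, σ (β1 z) = β2 z := by
  have hcases : Z.card = 2 ∨ Z.card = 3 := by omega
  rcases hcases with hc | hc
  · obtain ⟨a, b, hab, rfl⟩ := card_eq_two.mp hc
    rw [sum_pair hab] at s1 s2
    have hz : ∀ x y : K4, x + y = 0 → y = x := by decide
    have e1 := hz _ _ s1
    have e2 := hz _ _ s2
    have hex : ∀ x : K4, x ≠ 0 → ∃ y : K4, y ≠ 0 ∧ x ≠ y := by decide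
    have m1 := n1 a (by simp)
    have m2 := n2 a (by simp)
    obtain ⟨p, hp, hp2⟩ := hex _ m1
    obtain ⟨q, hq, hq2⟩ := hex _ m2
    obtain ⟨σ, hσ, g1, _⟩ := K4.hom (β1 a) p (β2 a) q m1 hp hp2 m2 hq hq2
    refine ⟨σ, hσ, fun z hz => ?_⟩
    rw [mem_insert, mem_singleton] at hz
    rcases hz with rfl | rfl
    · exact g1
    · rw [e1, e2]; exact g1
  · obtain ⟨a, b, c, hab, hac, hbc, rfl⟩ := card_eq_three.mp hc
    have hm : a ∉ ({b, c} : Finset V) := by simp [hab, hac]
    rw [sum_insert hm, sum_pair hbc] at s1 s2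
    obtain ⟨t1, t2⟩ := K4.three s1
    obtain ⟨u1, u2⟩ := K4.three s2
    have na1 := n1 a (by simp)
    have nb1 := n1 b (by simp)
    have nc1 := n1 c (by simp)
    have na2 := n2 a (by simp)
    have nb2 := n2 b (by simp)
    have nc2 := n2 c (by simp)
    obtain ⟨σ, hσ, g1, g2⟩ := K4.hom _ _ _ _ na1 nb1 (t2 nc1) na2 nb2 (u2 nc2)
    refine ⟨σ, hσ, fun z hz => ?_⟩
    rw [mem_insert, mem_insert, mem_singleton] at hz
    rcases hz with rfl | rfl | rfl
    · exact g1
    · exact g2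
    · rw [t1, u1, map_add, g1, g2]

/-- the induction step for separations -/
theorem sep_step {src dst : E → V} (h : MinCx src dst) {Z I : Finset V}
    (hc : Closed src dst Z I) (hd : Disjoint I Z) (h2 : 2 ≤ Z.card) (h3 : Z.card ≤ 3)
    {x y : V} (hx : x ∈ I) (nx : Nis src dst x) (hy : y ∈ (I ∪ Z)ᶜ) (ny : Nis src dst y)
    (ih : ∀ Z' K : Finset V, Z'.card + 1 = Z.card → Disjoint K Z' → Closed src dst Z' K →
      ∀ a ∈ K, Nis src dst a → ∀ b, b ∉ K → b ∉ Z' → Nis src dst b → False)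
    (n1 : ∀ K ⊆ I, ∀ en : V → E, (∀ z ∈ Z, Att src dst K z (en z)) →
      ∃ e ∈ tch src dst I, src e ≠ dst e ∧ ∀ z ∈ Z, e ≠ en z)
    (n2 : ∀ K ⊆ (I ∪ Z)ᶜ, ∀ en : V → E, (∀ z ∈ Z, Att src dst K z (en z)) →
      ∃ e ∈ tch src dst (I ∪ Z)ᶜ, src e ≠ dst e ∧ ∀ z ∈ Z, e ≠ en z) : False := by
  classical
  have hyI : y ∉ I := by
    intro h5; rw [mem_compl, mem_union] at hy; exact hy (Or.inl h5)
  have hyZ : y ∉ Z := by
    intro h5; rw [mem_compl, mem_union] at hy; exact hy (Or.inr h5)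
  obtain ⟨K, hKI, hxK, hK1, hK2, hK3⟩ := comp (src := src) (dst := dst) I hx
  obtain ⟨K', hKO, hyK, hK1', hK2', hK3'⟩ := comp (src := src) (dst := dst) (I ∪ Z)ᶜ hy
  have hKc : Conn src dst K := fun Y hY a ha b hb => (hK3 Y hY a ha).trans (hK3 Y hY b hb).symm
  have hKc' : Conn src dst K' :=
    fun Y hY a ha b hb => (hK3' Y hY a ha).trans (hK3' Y hY b hb).symm
  have hIZ : ∀ a ∈ I, a ∉ Z := fun a ha hz => disjoint_left.mp hd ha hz
  have hOZ : ∀ a ∈ (I ∪ Z)ᶜ, a ∉ I ∧ a ∉ Z := by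
    intro a ha
    rw [mem_compl, mem_union] at ha
    exact ⟨fun h5 => ha (Or.inl h5), fun h5 => ha (Or.inr h5)⟩
  have at1 : ∀ z ∈ Z, ∃ e, Att src dst K z e := by
    intro z hz
    by_contra hno
    refine ih (Z.erase z) K (by rw [card_erase_of_mem hz]; omega) ?_
      (hc.attach hKI hK1 hK2 z hno) x hxK nx y (fun h5 => hyI (hKI h5))
      (fun h5 => hyZ (mem_of_mem_erase h5)) ny
    exact disjoint_left.mpr fun a ha hz' => hIZ a (hKI ha) (mem_of_mem_erase hz')
  have at2 : ∀ z ∈ Z, ∃ e, Att src dst K' z e := by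
    intro z hz
    by_contra hno
    refine ih (Z.erase z) K' (by rw [card_erase_of_mem hz]; omega) ?_
      (hc.out.attach hKO hK1' hK2' z hno) y hyK ny x (fun h5 => (hOZ x (hKO h5)).1 hx)
      (fun h5 => hIZ x hx (mem_of_mem_erase h5)) nx
    exact disjoint_left.mpr fun a ha hz' => (hOZ a (hKO ha)).2 (mem_of_mem_erase hz')
  haveI : Nonempty E := ⟨nx.choose⟩
  have hE : ∃ en : V → E, ∀ z ∈ Z, Att src dst K z (en z) :=
    ⟨fun z => if hz : z ∈ Z then (at1 z hz).choose else Classical.arbitrary E,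
      fun z hz => by simp only [hz, dif_pos]; exact (at1 z hz).choose_spec⟩
  have hE' : ∃ en : V → E, ∀ z ∈ Z, Att src dst K' z (en z) :=
    ⟨fun z => if hz : z ∈ Z then (at2 z hz).choose else Classical.arbitrary E,
      fun z hz => by simp only [hz, dif_pos]; exact (at2 z hz).choose_spec⟩
  obtain ⟨en, hen⟩ := hE
  obtain ⟨en', hen'⟩ := hE'
  have hZ2 : ∀ z ∈ Z, ∃ z' ∈ Z, z' ≠ z := fun z _ => exists_mem_ne (by omega) z
  have hZ0 : Z.Nonempty := card_pos.mp (by omega)
  have hKt : ∀ e, (src e ∈ K ∨ dst e ∈ K) → e ∈ tch src dst I := fun e he => mem_tch.mpr (by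
    rcases he with he | he
    · exact Or.inl (hKI he)
    · exact Or.inr (hKI he))
  have hKt' : ∀ e, (src e ∈ K' ∨ dst e ∈ K') → e ∉ tch src dst I := fun e he => hc.nin (by
    rcases he with he | he
    · exact Or.inl (hKO he)
    · exact Or.inr (hKO he))
  -- the outside is replaced by a star
  obtain ⟨f1, a1, a2, a3⟩ := star h (Z := Z) (K := K') (F := tch src dst I) hZ2 hZ0
    (fun z hz h5 => (hOZ z (hKO h5)).2 hz) hKc' hKt' en' hen'
    (fun Y z hz z' hz' hzY hzY' => link hKc hKt (hen z hz) (hen z' hz') Y hzY hzY')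
    (fun Y hY => ⟨Y ∩ I, hc.yin Y hY⟩) (by
      obtain ⟨e, h5, h6, h7⟩ := n2 K' hKO en' hen'
      exact ⟨e, hc.nin (mem_tch.mp h5), h6, h7⟩)
  -- the inside is replaced by a star
  obtain ⟨f2, b1, b2, b3⟩ := star h (Z := Z) (K := K) (F := (tch src dst I)ᶜ) hZ2 hZ0
    (fun z hz h5 => hIZ z (hKI h5) hz) hKc (fun e he h5 => (mem_compl.mp h5) (hKt e he)) en hen
    (fun Y z hz z' hz' hzY hzY' =>
      link hKc' (fun e he => mem_compl.mpr (hKt' e he)) (hen' z hz) (hen' z' hz') Y hzY hzY')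
    (fun Y hY => ⟨Y \ I, hc.yout Y hY⟩) (by
      obtain ⟨e, h5, h6, h7⟩ := n1 K hKI en hen
      exact ⟨e, fun h8 => (mem_compl.mp h8) h5, h6, h7⟩)
  have b3' : ∀ z ∈ Z, bd src dst (rs (tch src dst I) f2) z ≠ 0 := by
    intro z hz
    have h5 := b3 z hz
    rw [bd_rs_compl _ _ _ (b1 z)] at h5
    exact h5
  obtain ⟨σ, hσ, hσ2⟩ := hom_of h2 h3 (fun z => bd src dst (rs (tch src dst I) f1) z)
    (fun z => bd src dst (rs (tch src dst I) f2) z) (hc.sumZ a1) (hc.sumZ b1) a3 b3'
  exact h.nf (glueZ hc σ hσ a1 b1 a2 (fun e he => b2 e (mem_compl.mpr he))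
    (fun z hz _ => hσ2 z hz))

/-- few roots leave an edge -/
theorem ne_two {src dst : E → V} (h : MinCx src dst) {Z O : Finset V} {x y : V} (hx : x ≠ y)
    (nx : Nis src dst x) (hy : y ∈ O) (ny : Nis src dst y) (hZ : Z.card ≤ 2) (en : V → E) :
    ∃ e ∈ tch src dst O, src e ≠ dst e ∧ ∀ z ∈ Z, e ≠ en z := by
  have h3 : 3 ≤ (crs src dst {y}).card :=
    cut3 h (x := y) (y := x) (mem_singleton_self _) (by simpa using hx) ny nx
  have h4 : (Z.image en).card < (crs src dst {y}).card :=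
    lt_of_le_of_lt card_image_le (by omega)
  obtain ⟨e, he, he2⟩ := exists_mem_notMem_of_card_lt_card h4
  rw [mem_crs, mem_singleton, mem_singleton] at he
  refine ⟨e, mem_tch.mpr ?_, fun h5 => he (by rw [h5]), fun z hz h5 => he2 ?_⟩
  · by_cases h5 : src e = y
    · exact Or.inl (h5 ▸ hy)
    · have : dst e = y := by tauto
      exact Or.inr (this ▸ hy)
  · rw [h5]; exact mem_image_of_mem _ hz

/-- two vertices leave an edge -/
theorem ne_three {src dst : E → V} (h : MinCx src dst) {Z O K : Finset V} {y y2 : V}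
    (hyy : y ≠ y2) (hy : y ∈ O) (ny : Nis src dst y) (hy2 : y2 ∈ O) (ny2 : Nis src dst y2)
    (hyZ : y ∉ Z) (hy2Z : y2 ∉ Z) (hZ : Z.card ≤ 3) (en : V → E)
    (hen : ∀ z ∈ Z, Att src dst K z (en z)) :
    ∃ e ∈ tch src dst O, src e ≠ dst e ∧ ∀ z ∈ Z, e ≠ en z := by
  by_contra hno
  push Not at hno
  have hsub : ∀ w ∈ O, crs src dst {w} ⊆ Z.image en := by
    intro w hw e he
    rw [mem_crs, mem_singleton, mem_singleton] at he
    obtain ⟨z, hz, h5⟩ := hno e (mem_tch.mpr (by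
      by_cases h5 : src e = w
      · exact Or.inl (h5 ▸ hw)
      · have : dst e = w := by tauto
        exact Or.inr (this ▸ hw))) (fun h5 => he (by rw [h5]))
    rw [h5]; exact mem_image_of_mem _ hz
  have c1 : 3 ≤ (crs src dst {y}).card :=
    cut3 h (x := y) (y := y2) (mem_singleton_self _) (by simpa using hyy.symm) ny ny2
  have c2 : 3 ≤ (crs src dst {y2}).card :=
    cut3 h (x := y2) (y := y) (mem_singleton_self _) (by simpa using hyy) ny2 ny
  have c3 : (Z.image en).card ≤ 3 := card_image_le.trans hZ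
  have e1 := eq_of_subset_of_card_le (hsub y hy) (by omega)
  have e2 := eq_of_subset_of_card_le (hsub y2 hy2) (by omega)
  obtain ⟨e, he⟩ : (crs src dst {y}).Nonempty := card_pos.mp (by omega)
  have he1 := he
  rw [e1] at he1
  have he2 := he1
  rw [← e2] at he2
  obtain ⟨z, hz, rfl⟩ := mem_image.mp he1
  rw [mem_crs, mem_singleton, mem_singleton] at he he2
  have hzy : z ≠ y := fun h5 => hyZ (h5 ▸ hz)
  have hzy2 : z ≠ y2 := fun h5 => hy2Z (h5 ▸ hz)
  rcases hen z hz with ⟨h5, h6⟩ | ⟨h5, h6⟩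
  · rw [h6] at he he2
    have g1 : src (en z) = y := by tauto
    have g2 : src (en z) = y2 := by tauto
    exact hyy (g1.symm.trans g2)
  · rw [h6] at he he2
    have g1 : dst (en z) = y := by tauto
    have g2 : dst (en z) = y2 := by tauto
    exact hyy (g1.symm.trans g2)

theorem sep2' {src dst : E → V} (h : MinCx src dst) {Z I : Finset V} (hc : Closed src dst Z I)
    (hd : Disjoint I Z) (hZ : Z.card ≤ 2) {x y : V} (hx : x ∈ I) (nx : Nis src dst x)
    (hy : y ∉ I) (hy2 : y ∉ Z) (ny : Nis src dst y) : False := by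
  by_cases h1 : Z.card ≤ 1
  · exact sep1 h hc h1 hx nx hy hy2 ny
  · have hxy : x ≠ y := fun h5 => hy (h5 ▸ hx)
    have hyO : y ∈ (I ∪ Z)ᶜ := by
      rw [mem_compl, mem_union]; tauto
    refine sep_step h hc hd (by omega) (by omega) hx nx hyO ny ?_
      (fun K _ en _ => ne_two h hxy.symm ny hx nx hZ en)
      (fun K _ en _ => ne_two h hxy nx hyO ny hZ en)
    intro Z' K hZ' _ hc' a ha na b hb hb2 nb
    exact sep1 h hc' (by omega) ha na hb hb2 nb

/-- **No vertex cuts with at most two vertices.** -/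
theorem sep2 {src dst : E → V} (h : MinCx src dst) {Z I : Finset V} (hc : Closed src dst Z I)
    (hZ : Z.card ≤ 2) {x y : V} (hx : x ∈ I) (nx : Nis src dst x)
    (hy : y ∉ I) (hy2 : y ∉ Z) (ny : Nis src dst y) : False := by
  refine sep2' h (Z := Z \ I) (I := I) ?_ ?_ ((card_le_card sdiff_subset).trans hZ) hx nx hy
    (fun h5 => hy2 (mem_sdiff.mp h5).1) ny
  · intro e he
    have := hc e he
    rw [union_sdiff_self_eq_union]
    exact this
  · exact disjoint_sdiff

/-- **A vertex cut with three vertices separates only one vertex.** -/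
theorem sep3 {src dst : E → V} (h : MinCx src dst) {Z I : Finset V} (hc : Closed src dst Z I)
    (hZ : Z.card ≤ 3) {x x2 y y2 : V} (hx : x ∈ I) (nx : Nis src dst x) (hx2 : x2 ∈ I)
    (nx2 : Nis src dst x2) (hxx : x ≠ x2) (hy : y ∉ I) (hyZ : y ∉ Z) (ny : Nis src dst y)
    (hy2 : y2 ∉ I) (hy2Z : y2 ∉ Z) (ny2 : Nis src dst y2) (hyy : y ≠ y2) : False := by
  have hc' : Closed src dst (Z \ I) I := by
    intro e he
    have := hc e he
    rw [union_sdiff_self_eq_union]
    exact this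
  have hd : Disjoint I (Z \ I) := disjoint_sdiff
  have hZ' : (Z \ I).card ≤ 3 := (card_le_card sdiff_subset).trans hZ
  have hyZ' : y ∉ Z \ I := fun h5 => hyZ (mem_sdiff.mp h5).1
  have hy2Z' : y2 ∉ Z \ I := fun h5 => hy2Z (mem_sdiff.mp h5).1
  generalize Z \ I = W at hc' hd hZ' hyZ' hy2Z'
  by_cases h2 : W.card ≤ 2
  · exact sep2 h hc' h2 hx nx hy hyZ' ny
  · have hyO : y ∈ (I ∪ W)ᶜ := by
      rw [mem_compl, mem_union]; tauto
    have hy2O : y2 ∈ (I ∪ W)ᶜ := by
      rw [mem_compl, mem_union]; tauto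
    refine sep_step h hc' hd (by omega) (by omega) hx nx hyO ny ?_
      (fun K _ en hen => ne_three h hxx hx nx hx2 nx2 (disjoint_left.mp hd hx)
        (disjoint_left.mp hd hx2) hZ' en hen)
      (fun K _ en hen => ne_three h hyy hyO ny hy2O ny2 hyZ' hy2Z' hZ' en hen)
    intro Z' K hZ'' hd' hc'' a ha na b hb hb2 nb
    exact sep2 h hc'' (by omega) ha na hb hb2 nb

end Pool.Agent.TH497.T4
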