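import Pool.Agent.TH497.T4.K3

set_option autoImplicit false
set_option linter.unusedSectionVars false

/-! # Separations with three vertices, the form used in the assembly -/

namespace Pool.Agent.TH497.T4

open Finset Pool.Agent.TH462.T4 Pool.Agent.TH676.T4

variable {V E : Type} [Fintype V] [DecidableEq V] [Fintype E] [DecidableEq E]

theorem k3 {src dst : E → V} (h : MinCx src dst) : ∀ I Z : Finset V, Z.card ≤ 3 →
    Disjoint I Z → 2 ≤ I.card → (∀ x ∈ I, Nis src dst x) →
    (∀ e, src e ≠ dst e → (src e ∈ I → dst e ∈ I ∪ Z) ∧ (dst e ∈ I → src e ∈ I ∪ Z)) →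
    ∀ x y, x ≠ y → x ∉ I ∪ Z → y ∉ I ∪ Z → Nis src dst x → Nis src dst y → False := by
  intro I Z hZ _ hI hn hc x y hxy hx hy nx ny
  obtain ⟨a, ha, b, hb, hab⟩ := one_lt_card.mp (show 1 < I.card by omega)
  rw [mem_union, not_or] at hx hy
  refine sep3 h (Z := Z) (I := I) ?_ hZ ha (hn a ha) hb (hn b hb) hab hx.1 hx.2 nx
    hy.1 hy.2 ny hxy
  intro e he
  by_cases hl : src e = dst e
  · have : src e ∈ I := by
      rcases he with he | he
      · exact he
      · rw [hl]; exact he
    exact ⟨mem_union_left _ this, mem_union_left _ (hl ▸ this)⟩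
  · obtain ⟨h1, h2⟩ := hc e hl
    rcases he with he | he
    · exact ⟨mem_union_left _ he, h1 he⟩
    · exact ⟨h2 he, mem_union_left _ he⟩

end Pool.Agent.TH497.T4
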